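import Pool.Agent.Lib.MP_b3207d_co.HM.Spec

/-!
# ATH: the augmentations with one, two and three new cells
-/

set_option autoImplicit false

namespace Pool.Agent.Lib.MPb3207d.HM

namespace ATHM

variable {R C α : Type}

theorem fst_ne [DecidableEq R] {M : Finset (R × C)} {x : R} (hx : x ∉ rows M) {v : R × C} (hv : v ∈ M) :
    x ≠ v.1 := by
  intro h
  exact hx (h ▸ Finset.mem_image_of_mem Prod.fst hv)

theorem snd_ne [DecidableEq C] {M : Finset (R × C)} {y : C} (hy : y ∉ clms M) {v : R × C} (hv : v ∈ M) :
    y ≠ v.2 := by
  intro h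
  exact hy (h ▸ Finset.mem_image_of_mem Prod.snd hv)

theorem rm_one (c : R → C → α) (e : R × C) : RM c {e} := by
  refine ⟨?_, ?_, ?_⟩ <;>
  · intro a ha b hb _
    rw [Finset.mem_singleton] at ha hb
    rw [ha, hb]

theorem rm_two [DecidableEq R] [DecidableEq C] (c : R → C → α) (e f : R × C) (h1 : e.1 ≠ f.1) (h2 : e.2 ≠ f.2)
    (h3 : col c e ≠ col c f) : RM c {e, f} := by
  refine ⟨?_, ?_, ?_⟩
  · intro a ha b hb hab
    rw [Finset.mem_insert, Finset.mem_singleton] at ha hb
    rcases ha with rfl | rfl <;> rcases hb with rfl | rfl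
    · rfl
    · exact absurd hab h1
    · exact absurd hab.symm h1
    · rfl
  · intro a ha b hb hab
    rw [Finset.mem_insert, Finset.mem_singleton] at ha hb
    rcases ha with rfl | rfl <;> rcases hb with rfl | rfl
    · rfl
    · exact absurd hab h2
    · exact absurd hab.symm h2
    · rfl
  · intro a ha b hb hab
    rw [Finset.mem_insert, Finset.mem_singleton] at ha hb
    rcases ha with rfl | rfl <;> rcases hb with rfl | rfl
    · rfl
    · exact absurd hab h3
    · exact absurd hab.symm h3
    · rfl

theorem rm_three [DecidableEq R] [DecidableEq C] (c : R → C → α) (e f g : R × C) (h1 : e.1 ≠ f.1) (h2 : e.2 ≠ f.2)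
    (h3 : col c e ≠ col c f) (h4 : e.1 ≠ g.1) (h5 : e.2 ≠ g.2) (h6 : col c e ≠ col c g)
    (h7 : f.1 ≠ g.1) (h8 : f.2 ≠ g.2) (h9 : col c f ≠ col c g) : RM c {e, f, g} := by
  refine ⟨?_, ?_, ?_⟩
  · intro a ha b hb hab
    rw [Finset.mem_insert, Finset.mem_insert, Finset.mem_singleton] at ha hb
    rcases ha with rfl | rfl | rfl <;> rcases hb with rfl | rfl | rfl
    · rfl
    · exact absurd hab h1
    · exact absurd hab h4
    · exact absurd hab.symm h1
    · rfl
    · exact absurd hab h7
    · exact absurd hab.symm h4
    · exact absurd hab.symm h7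
    · rfl
  · intro a ha b hb hab
    rw [Finset.mem_insert, Finset.mem_insert, Finset.mem_singleton] at ha hb
    rcases ha with rfl | rfl | rfl <;> rcases hb with rfl | rfl | rfl
    · rfl
    · exact absurd hab h2
    · exact absurd hab h5
    · exact absurd hab.symm h2
    · rfl
    · exact absurd hab h8
    · exact absurd hab.symm h5
    · exact absurd hab.symm h8
    · rfl
  · intro a ha b hb hab
    rw [Finset.mem_insert, Finset.mem_insert, Finset.mem_singleton] at ha hb
    rcases ha with rfl | rfl | rfl <;> rcases hb with rfl | rfl | rfl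
    · rfl
    · exact absurd hab h3
    · exact absurd hab h6
    · exact absurd hab.symm h3
    · rfl
    · exact absurd hab h9
    · exact absurd hab.symm h6
    · exact absurd hab.symm h9
    · rfl

end ATHM

open ATHM in
/-- ATH: the augmentations with one, two and three new cells. -/
theorem specATH (hAUG : SpecAUG) : SpecATH := by
  refine ⟨?_, ?_, ?_⟩
  · intro R C α _ _ _ c M K s _ hM hmax hW x y hx hy
    by_contra hc
    refine hAUG c M K s hM hmax hW ∅ {(x, y)} (Finset.empty_subset _) (by simp)
      (rm_one c (x, y)) (by simp) ?_ ?_ ?_ ?_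
    · intro e he
      rw [Finset.mem_singleton] at he
      subst he
      exact Or.inr hx
    · intro e he
      rw [Finset.mem_singleton] at he
      subst he
      exact Or.inr hy
    · intro e he
      rw [Finset.mem_singleton] at he
      subst he
      exact hc
    · intro e _ h
      simp [cols] at h
  · intro R C α _ _ _ c M K s hc hM hmax hW x y hx hy v hv h1 h2
    by_contra hne
    have hxv : x ≠ v.1 := fst_ne hx hv
    have hyv : y ≠ v.2 := snd_ne hy hv
    have hpair : ((x, v.2) : R × C) ≠ (v.1, y) := fun h => hxv (Prod.mk.inj h).1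
    refine hAUG c M K s hM hmax hW {v} {(x, v.2), (v.1, y)}
      (Finset.singleton_subset_iff.2 hv) (by simp)
      (rm_two c (x, v.2) (v.1, y) hxv hyv.symm hne) ?_ ?_ ?_ ?_ ?_
    · rw [Finset.card_pair hpair, Finset.card_singleton]
    · intro e he
      rw [Finset.mem_insert, Finset.mem_singleton] at he
      rcases he with rfl | rfl
      · exact Or.inr hx
      · left
        simp [rows]
    · intro e he
      rw [Finset.mem_insert, Finset.mem_singleton] at he
      rcases he with rfl | rfl
      · left
        simp [clms]
      · exact Or.inr hy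
    · intro e he
      rw [Finset.mem_insert, Finset.mem_singleton] at he
      rcases he with rfl | rfl
      · exact h1
      · exact h2
    · intro e he hcol
      rw [cols, Finset.image_singleton, Finset.mem_singleton] at hcol
      rw [Finset.mem_insert, Finset.mem_singleton] at he
      rcases he with rfl | rfl
      · exact hxv (hc.clm _ _ _ hcol)
      · exact hyv (hc.row _ _ _ hcol)
  · intro R C α _ _ _ c M K s hc hM hmax hW x y hx hy w hw u hu hwu h1 h2 h3
    by_contra hne
    push Not at hne
    obtain ⟨n1, n2, n3, n4, n5⟩ := hne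
    have hxw : x ≠ w.1 := fst_ne hx hw
    have hyw : y ≠ w.2 := snd_ne hy hw
    have hxu : x ≠ u.1 := fst_ne hx hu
    have hyu : y ≠ u.2 := snd_ne hy hu
    have hwu1 : w.1 ≠ u.1 := fun h => hwu (hM.row w hw u hu h)
    have hwu2 : w.2 ≠ u.2 := fun h => hwu (hM.clm w hw u hu h)
    have p1 : ((x, w.2) : R × C) ≠ (w.1, u.2) := fun h => hxw (Prod.mk.inj h).1
    have p2 : ((x, w.2) : R × C) ≠ (u.1, y) := fun h => hxu (Prod.mk.inj h).1
    have p3 : ((w.1, u.2) : R × C) ≠ (u.1, y) := fun h => hwu1 (Prod.mk.inj h).1
    refine hAUG c M K s hM hmax hW {w, u} {(x, w.2), (w.1, u.2), (u.1, y)} ?_ ?_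
      (rm_three c (x, w.2) (w.1, u.2) (u.1, y) hxw hwu2 n1 hxu hyw.symm n3 hwu1 hyu.symm n2) ?_ ?_ ?_ ?_ ?_
    · intro e he
      rw [Finset.mem_insert, Finset.mem_singleton] at he
      rcases he with rfl | rfl
      · exact hw
      · exact hu
    · rw [Finset.card_pair hwu]
    · rw [Finset.card_pair hwu, Finset.card_eq_three]
      exact ⟨_, _, _, p1, p2, p3, rfl⟩
    · intro e he
      rw [Finset.mem_insert, Finset.mem_insert, Finset.mem_singleton] at he
      rcases he with rfl | rfl | rfl
      · exact Or.inr hx
      · left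
        simp [rows]
      · left
        simp [rows]
    · intro e he
      rw [Finset.mem_insert, Finset.mem_insert, Finset.mem_singleton] at he
      rcases he with rfl | rfl | rfl
      · left
        simp [clms]
      · left
        simp [clms]
      · exact Or.inr hy
    · intro e he
      rw [Finset.mem_insert, Finset.mem_insert, Finset.mem_singleton] at he
      rcases he with rfl | rfl | rfl
      · exact h1
      · exact h2
      · exact h3
    · intro e he hcol
      rw [cols, Finset.image_insert, Finset.image_singleton, Finset.mem_insert,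
        Finset.mem_singleton] at hcol
      rw [Finset.mem_insert, Finset.mem_insert, Finset.mem_singleton] at he
      rcases he with rfl | rfl | rfl
      · rcases hcol with h | h
        · exact hxw (hc.clm _ _ _ h)
        · exact n4 h
      · rcases hcol with h | h
        · exact hwu2 (hc.row _ _ _ h).symm
        · exact hwu1 (hc.clm _ _ _ h)
      · rcases hcol with h | h
        · exact n5 h
        · exact hyu (hc.row _ _ _ h)

end Pool.Agent.Lib.MPb3207d.HM
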