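import Pool.Agent.Lib.MP_b3207d_co.HM.Spec

/-!
# Module AUG: no augmentation with free colours
-/

set_option autoImplicit false

namespace Pool.Agent.Lib.MPb3207d.HM

theorem specAUG (hSWP : SpecSWP) (hREC : SpecREC) : SpecAUG := by
  intro R C α _ _ _ c M K s hM hmax hW Q Q' hQM hQ2 hQ' hcard hrow hclm hcolB hcolQ
  classical
  have hWs : W (s + 1) = W s + 8 + 2 * T s := rfl
  have hmemcols : ∀ {N : Finset (R × C)} {e : R × C}, e ∈ N → col c e ∈ cols c N :=
    fun he => Finset.mem_image_of_mem _ he
  have hH : ∀ h ∈ M.filter (fun h => col c h ∈ cols c Q'), h ∈ M ∧ ∃ e ∈ Q', col c e = col c h := by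
    intro h hh
    rw [Finset.mem_filter] at hh
    exact ⟨hh.1, Finset.mem_image.1 hh.2⟩
  have hHcard : (M.filter (fun h => col c h ∈ cols c Q')).card ≤ 3 := by
    have h1 : (M.filter (fun h => col c h ∈ cols c Q')).card ≤ (cols c Q').card := by
      refine Finset.card_le_card_of_injOn (col c) ?_ ?_
      · intro h hh
        exact (Finset.mem_filter.1 hh).2
      · intro h hh h' hh' heq
        exact hM.rbw h (Finset.mem_filter.1 hh).1 h' (Finset.mem_filter.1 hh').1 heq
    have h2 : (cols c Q').card ≤ Q'.card := Finset.card_image_le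
    omega
  have hF : (cols c Q').card ≤ 3 := by
    have h2 : (cols c Q').card ≤ Q'.card := Finset.card_image_le
    omega
  obtain ⟨N', hN', hN'card, hN'rows, hN'clms, hfree, hkeep, hnew, -⟩ :=
    hREC c M K hM s M Q (M.filter (fun h => col c h ∈ cols c Q')) (cols c Q') 2 3 0 hM rfl
      (Finset.filter_subset _ _) (Finset.filter_subset _ _)
      (by
        rw [Finset.disjoint_left]
        intro h hh hl
        obtain ⟨-, e, he, heq⟩ := hH h hh
        exact hcolB e he (heq ▸ hmemcols hl))
      (by
        rw [Finset.disjoint_left]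
        intro h hh hl
        obtain ⟨-, e, he, heq⟩ := hH h hh
        exact hcolQ e he (heq ▸ hmemcols hl))
      hHcard hQ2 hF (by simp) (by omega)
  have hQN : Q ⊆ N' := fun e he => hkeep e (hQM he) he
  have hcol : ∀ e ∈ Q', col c e ∉ cols c N' := by
    intro e he hc
    obtain ⟨m, hm, hme⟩ := Finset.mem_image.1 (hnew _ (hmemcols he) hc)
    have hmH : m ∈ M.filter (fun h => col c h ∈ cols c Q') := by
      rw [Finset.mem_filter]
      exact ⟨hm, by rw [hme]; exact hmemcols he⟩
    exact hfree m hmH (by rw [hme]; exact hc)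
  obtain ⟨h1, h2⟩ := hSWP c N' Q Q' hN' hQN hQ' (by
    intro e he f hf hfQ
    refine ⟨?_, ?_, ?_⟩
    · intro heq
      rcases hrow e he with h | h
      · obtain ⟨q, hq, hqe⟩ := Finset.mem_image.1 h
        have := hN'.row q (hQN hq) f hf (hqe.trans heq)
        exact hfQ (this ▸ hq)
      · apply h
        rw [← hN'rows, heq]
        exact Finset.mem_image_of_mem _ hf
    · intro heq
      rcases hclm e he with h | h
      · obtain ⟨q, hq, hqe⟩ := Finset.mem_image.1 h
        have := hN'.clm q (hQN hq) f hf (hqe.trans heq)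
        exact hfQ (this ▸ hq)
      · apply h
        rw [← hN'clms, heq]
        exact Finset.mem_image_of_mem _ hf
    · intro heq
      apply hcol e he
      rw [heq]
      exact hmemcols hf)
  have h3 := hmax _ h1
  omega

end Pool.Agent.Lib.MPb3207d.HM
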