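import Pool.Agent.Lib.MP_b3207d_co.HM.Spec

/-!
# BAD: a vertex which is not robust
-/

set_option autoImplicit false

namespace Pool.Agent.Lib.MPb3207d.HM

open Finset

namespace BADM

variable {R C α : Type} [DecidableEq R] [DecidableEq C] [DecidableEq α]

/-- preimages of a small set under an injective map -/
lemma card_in {β γ : Type} [DecidableEq γ] (M : Finset β) (g : β → γ) (F : Finset γ)
    (hg : ∀ a ∈ M, ∀ b ∈ M, g a = g b → a = b) :
    (M.filter fun z => g z ∈ F).card ≤ F.card := by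
  refine card_le_card_of_injOn g (fun z hz => (mem_filter.1 hz).2) ?_
  intro a ha b hb hab
  exact hg a (mem_filter.1 ha).1 b (mem_filter.1 hb).1 hab

lemma card_eq {β γ : Type} [DecidableEq γ] (M : Finset β) (g : β → γ) (t : γ)
    (hg : ∀ a ∈ M, ∀ b ∈ M, g a = g b → a = b) :
    (M.filter fun z => g z = t).card ≤ 1 := by
  refine card_le_one.2 ?_
  intro a ha b hb
  exact hg a (mem_filter.1 ha).1 b (mem_filter.1 hb).1
    ((mem_filter.1 ha).2.trans (mem_filter.1 hb).2.symm)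

variable {c : R → C → α} {M : Finset (R × C)}

lemma injR (hc : Proper c) (hM : RM c M) (x : R) :
    ∀ a ∈ M, ∀ b ∈ M, c x a.2 = c x b.2 → a = b := fun a ha b hb h =>
  hM.clm a ha b hb (hc.row _ _ _ h)

lemma injC (hc : Proper c) (hM : RM c M) (y : C) :
    ∀ a ∈ M, ∀ b ∈ M, c a.1 y = c b.1 y → a = b := fun a ha b hb h =>
  hM.row a ha b hb (hc.clm _ _ _ h)

/-- the exceptional pairs -/
def U (c : R → C → α) (M : Finset (R × C)) (v w : R × C) : Finset (R × C) :=
  M.filter fun z => c w.1 z.2 = c z.1 v.2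

def U' (c : R → C → α) (M : Finset (R × C)) (v w : R × C) : Finset (R × C) :=
  M.filter fun z => c v.1 z.2 = c z.1 w.2

lemma sum_U (hc : Proper c) (hM : RM c M) (v : R × C) (P : Finset (R × C)) (hP : P ⊆ M) :
    ∑ w ∈ P, (U c M v w).card ≤ M.card := by
  have h1 : ∑ w ∈ P, (U c M v w).card =
      ∑ z ∈ M, (P.filter fun w => c w.1 z.2 = c z.1 v.2).card := by
    simp only [U, card_filter]
    rw [sum_comm]
  rw [h1]
  calc ∑ z ∈ M, (P.filter fun w => c w.1 z.2 = c z.1 v.2).card ≤ ∑ _z ∈ M, 1 := by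
        refine sum_le_sum fun z _ => ?_
        exact card_eq P (fun w => c w.1 z.2) _
          (fun a ha b hb h => injC hc hM z.2 a (hP ha) b (hP hb) h)
    _ = M.card := by simp

lemma sum_U' (hc : Proper c) (hM : RM c M) (v : R × C) (P : Finset (R × C)) (hP : P ⊆ M) :
    ∑ w ∈ P, (U' c M v w).card ≤ M.card := by
  have h1 : ∑ w ∈ P, (U' c M v w).card =
      ∑ z ∈ M, (P.filter fun w => c v.1 z.2 = c z.1 w.2).card := by
    simp only [U', card_filter]
    rw [sum_comm]
  rw [h1]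
  calc ∑ z ∈ M, (P.filter fun w => c v.1 z.2 = c z.1 w.2).card ≤ ∑ _z ∈ M, 1 := by
        refine sum_le_sum fun z _ => ?_
        have := card_eq P (fun w => c z.1 w.2) (c v.1 z.2)
          (fun a ha b hb h => injR hc hM z.1 a (hP ha) b (hP hb) h)
        refine le_trans (card_le_card ?_) this
        intro w hw
        rw [mem_filter] at hw ⊢
        exact ⟨hw.1, hw.2.symm⟩
    _ = M.card := by simp

end BADM

open BADM in
/-- BAD -/
theorem specBAD (hCYC : SpecCYC) : SpecBAD := by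
  intro R C α _ _ _ c M B K q E hc hM hq hE v hv hrob S hS
  unfold Rob at hrob
  push Not at hrob
  obtain ⟨X, F, hX, hF, hno⟩ := hrob
  by_contra hcon
  push Not at hcon
  obtain ⟨hpar, htri⟩ := hcon
  have hno' : ¬ ∃ Q Q', Rep c M B v X F Q Q' := by
    rintro ⟨Q, Q', h⟩
    exact hno Q Q' h
  set P := (par c B S v).filter fun w => w ∉ X ∧ c v.1 w.2 ∉ F ∧ c w.1 v.2 ∉ F with hP
  have hparM : par c B S v ⊆ M := fun w hw => hS (mem_filter.1 hw).1
  have hPM : P ⊆ M := fun w hw => hparM (mem_filter.1 hw).1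
  -- step 1
  have h1 : (par c B S v).card ≤ P.card + 3 * K := by
    have hsub : par c B S v ⊆ P ∪ (X ∪ ((M.filter fun w => c v.1 w.2 ∈ F) ∪
        (M.filter fun w => c w.1 v.2 ∈ F))) := by
      intro w hw
      have hwM := hparM hw
      simp only [mem_union, hP, mem_filter]
      by_cases a1 : w ∈ X
      · exact Or.inr (Or.inl a1)
      by_cases a2 : c v.1 w.2 ∈ F
      · exact Or.inr (Or.inr (Or.inl ⟨hwM, a2⟩))
      by_cases a3 : c w.1 v.2 ∈ F
      · exact Or.inr (Or.inr (Or.inr ⟨hwM, a3⟩))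
      exact Or.inl ⟨hw, a1, a2, a3⟩
    have b1 := card_in M (fun w => c v.1 w.2) F (injR hc hM v.1)
    have b2 := card_in M (fun w => c w.1 v.2) F (injC hc hM v.2)
    have b3 := card_le_card hsub
    have b4 := card_union_le P (X ∪ ((M.filter fun w => c v.1 w.2 ∈ F) ∪
        (M.filter fun w => c w.1 v.2 ∈ F)))
    have b5 := card_union_le X ((M.filter fun w => c v.1 w.2 ∈ F) ∪
        (M.filter fun w => c w.1 v.2 ∈ F))
    have b6 := card_union_le (M.filter fun w => c v.1 w.2 ∈ F) (M.filter fun w => c w.1 v.2 ∈ F)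
    omega
  have hPq : q + 1 ≤ P.card := by omega
  -- step 2
  have hstar : ∀ w ∈ P, c v.1 w.2 = c w.1 v.2 := by
    intro w hw
    by_contra hne
    obtain ⟨hw1, hw2, hw3, hw4⟩ := mem_filter.1 hw
    obtain ⟨_, hw5, hw6, hw7⟩ := mem_filter.1 hw1
    exact hno' (hCYC.two c M B X F hc hM v hv w (hPM hw) hw5 hw2 hw6 hw7 hw3 hw4 hne)
  -- step 3
  have h3 : ∀ w ∈ P, (tri c B S v w).card ≤ 5 * K + 5 + (U c M v w).card + (U' c M v w).card := by
    intro w hw
    have hst := hstar w hw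
    obtain ⟨hw1, hwX, hwF1, hwF2⟩ := mem_filter.1 hw
    obtain ⟨_, hwv, hwB1, hwB2⟩ := mem_filter.1 hw1
    have hwM := hPM hw
    set D1 := M.filter fun z => c w.1 z.2 ∈ F with hD1
    set D2 := M.filter fun z => c z.1 v.2 ∈ F with hD2
    set D3 := M.filter fun z => c v.1 z.2 ∈ F with hD3
    set D4 := M.filter fun z => c z.1 w.2 ∈ F with hD4
    set G1 := M.filter fun z => col c z = c v.1 w.2 with hG1
    set G2 := M.filter fun z => c w.1 z.2 = col c v with hG2
    set G3 := M.filter fun z => c z.1 v.2 = col c w with hG3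
    set G4 := M.filter fun z => c v.1 z.2 = col c w with hG4
    set G5 := M.filter fun z => c z.1 w.2 = col c v with hG5
    have hsub : tri c B S v w ⊆ X ∪ (D1 ∪ (D2 ∪ (D3 ∪ (D4 ∪ (G1 ∪ (G2 ∪ (G3 ∪ (G4 ∪ (G5 ∪
        (U c M v w ∪ U' c M v w)))))))))) := by
      intro z hz
      obtain ⟨hzS, hzv, hzw, hz⟩ := mem_filter.1 hz
      have hzM := hS hzS
      by_contra hout
      simp only [mem_union, hD1, hD2, hD3, hD4, hG1, hG2, hG3, hG4, hG5, U, U', mem_filter, hzM,
        true_and, not_or] at hout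
      obtain ⟨o1, o2, o3, o4, o5, o6, o7, o8, o9, o10, o11, o12⟩ := hout
      rcases hz with ⟨z1, z2⟩ | ⟨z1, z2⟩
      · refine hno' (hCYC.three c M B X F hc hM v hv w hwM z hzM hwv hzv (Ne.symm hzw) hwX o1
          hwB1 z1 z2 hwF1 o2 o3 ?_ o11 ?_ (fun h => o6 h.symm) o7 o8)
        · intro h
          rw [hst] at h
          exact hzv (injR hc hM w.1 v hv z hzM h).symm
        · intro h
          rw [hst] at h
          exact hzw (injC hc hM v.2 w hwM z hzM h).symm
      · refine hno' (hCYC.three c M B X F hc hM v hv z hzM w hwM hzv hwv hzw o1 hwX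
          z1 z2 hwB2 o4 o5 hwF2 o12 ?_ ?_ o9 o10 (fun h => o6 (by rw [hst]; exact h.symm)))
        · intro h
          rw [← hst] at h
          exact hzv (injC hc hM w.2 z hzM v hv h)
        · intro h
          rw [← hst] at h
          exact hzw (injR hc hM v.1 z hzM w hwM h)
    have d1 : D1.card ≤ F.card := card_in M (fun z => c w.1 z.2) F (injR hc hM w.1)
    have d2 : D2.card ≤ F.card := card_in M (fun z => c z.1 v.2) F (injC hc hM v.2)
    have d3 : D3.card ≤ F.card := card_in M (fun z => c v.1 z.2) F (injR hc hM v.1)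
    have d4 : D4.card ≤ F.card := card_in M (fun z => c z.1 w.2) F (injC hc hM w.2)
    have g1 : G1.card ≤ 1 := card_eq M (fun z => col c z) _ (fun a ha b hb h => hM.rbw a ha b hb h)
    have g2 : G2.card ≤ 1 := card_eq M (fun z => c w.1 z.2) _ (injR hc hM w.1)
    have g3 : G3.card ≤ 1 := card_eq M (fun z => c z.1 v.2) _ (injC hc hM v.2)
    have g4 : G4.card ≤ 1 := card_eq M (fun z => c v.1 z.2) _ (injR hc hM v.1)
    have g5 : G5.card ≤ 1 := card_eq M (fun z => c z.1 w.2) _ (injC hc hM w.2)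
    have e0 := card_le_card hsub
    have e1 := card_union_le X (D1 ∪ (D2 ∪ (D3 ∪ (D4 ∪ (G1 ∪ (G2 ∪ (G3 ∪ (G4 ∪ (G5 ∪
        (U c M v w ∪ U' c M v w))))))))))
    have e2 := card_union_le D1 (D2 ∪ (D3 ∪ (D4 ∪ (G1 ∪ (G2 ∪ (G3 ∪ (G4 ∪ (G5 ∪
        (U c M v w ∪ U' c M v w)))))))))
    have e3 := card_union_le D2 (D3 ∪ (D4 ∪ (G1 ∪ (G2 ∪ (G3 ∪ (G4 ∪ (G5 ∪
        (U c M v w ∪ U' c M v w))))))))
    have e4 := card_union_le D3 (D4 ∪ (G1 ∪ (G2 ∪ (G3 ∪ (G4 ∪ (G5 ∪
        (U c M v w ∪ U' c M v w)))))))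
    have e5 := card_union_le D4 (G1 ∪ (G2 ∪ (G3 ∪ (G4 ∪ (G5 ∪ (U c M v w ∪ U' c M v w))))))
    have e6 := card_union_le G1 (G2 ∪ (G3 ∪ (G4 ∪ (G5 ∪ (U c M v w ∪ U' c M v w)))))
    have e7 := card_union_le G2 (G3 ∪ (G4 ∪ (G5 ∪ (U c M v w ∪ U' c M v w))))
    have e8 := card_union_le G3 (G4 ∪ (G5 ∪ (U c M v w ∪ U' c M v w)))
    have e9 := card_union_le G4 (G5 ∪ (U c M v w ∪ U' c M v w))
    have e10 := card_union_le G5 (U c M v w ∪ U' c M v w)
    have e11 := card_union_le (U c M v w) (U' c M v w)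
    omega
  -- the end
  have h4 : ∀ w ∈ P, q + 1 ≤ (U c M v w).card + (U' c M v w).card := by
    intro w hw
    have a1 := h3 w hw
    have a2 := htri w (mem_filter.1 hw).1
    omega
  have h5 : P.card * (q + 1) ≤ ∑ w ∈ P, ((U c M v w).card + (U' c M v w).card) := by
    rw [← smul_eq_mul]
    exact card_nsmul_le_sum P _ _ h4
  rw [sum_add_distrib] at h5
  have h6 := sum_U hc hM v P hPM
  have h7 := sum_U' hc hM v P hPM
  nlinarith [Nat.mul_le_mul_right (q + 1) hPq]

end Pool.Agent.Lib.MPb3207d.HM
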