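import Pool.Agent.Lib.MP_b3207d_co.HM.Spec

/-!
# Module CNT: counting of non-arcs in a digraph
-/

set_option autoImplicit false

namespace Pool.Agent.Lib.MPb3207d.HM

namespace CNTM

variable {V : Type} [DecidableEq V] (A : V → V → Prop) [DecidableRel A]

/-- indicator of a non-arc -/
def n (x y : V) : ℕ := if A x y then 0 else 1

/-- number of non-arcs in `S` -/
def NN (S : Finset V) : ℕ := ((S ×ˢ S).filter fun p => p.1 ≠ p.2 ∧ ¬ A p.1 p.2).card

lemma NN_insert (v : V) (T : Finset V) (hv : v ∉ T) :
    NN A (insert v T) = NN A T + ∑ z ∈ T, (n A v z + n A z v) := by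
  unfold NN
  rw [Finset.card_filter, Finset.card_filter, Finset.sum_product, Finset.sum_product,
    Finset.sum_insert hv, Finset.sum_insert hv]
  have h1 : ∑ x ∈ T, ∑ y ∈ insert v T, (if x ≠ y ∧ ¬ A x y then 1 else 0 : ℕ) =
      ∑ x ∈ T, n A x v + ∑ x ∈ T, ∑ y ∈ T, (if x ≠ y ∧ ¬ A x y then 1 else 0 : ℕ) := by
    rw [← Finset.sum_add_distrib]
    refine Finset.sum_congr rfl fun x hx => ?_
    rw [Finset.sum_insert hv]
    have hxv : x ≠ v := fun h => hv (h ▸ hx)
    congr 1
    unfold n
    by_cases h : A x v <;> simp [h, hxv]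
  have h2 : ∑ y ∈ T, (if v ≠ y ∧ ¬ A v y then 1 else 0 : ℕ) = ∑ y ∈ T, n A v y := by
    refine Finset.sum_congr rfl fun x hx => ?_
    have hxv : v ≠ x := fun h => hv (h ▸ hx)
    unfold n
    by_cases h : A v x <;> simp [h, hxv]
  rw [h1, h2, Finset.sum_add_distrib]
  simp
  ring

lemma one (v : V) (T : Finset V) (E : ℕ)
    (h : (T.filter fun w => A v w ∧ A w v).card ≤ E) :
    T.card ≤ ∑ z ∈ T, (n A v z + n A z v) + E := by
  have h1 : T.card = (T.filter fun w => A v w ∧ A w v).card +
      (T.filter fun w => ¬ (A v w ∧ A w v)).card :=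
    (Finset.card_filter_add_card_filter_not _).symm
  have h2 : (T.filter fun w => ¬ (A v w ∧ A w v)).card ≤ ∑ z ∈ T, (n A v z + n A z v) := by
    rw [Finset.card_filter]
    refine Finset.sum_le_sum fun z _ => ?_
    unfold n
    by_cases ha : A v z <;> by_cases hb : A z v <;> simp [ha, hb]
  omega

lemma two (v w : V) (T : Finset V) (E : ℕ)
    (h : (T.filter fun z => (A w z ∧ A z v) ∨ (A v z ∧ A z w)).card ≤ E) :
    2 * T.card ≤ ∑ z ∈ T, (n A v z + n A z v) + ∑ z ∈ T, (n A w z + n A z w) + 2 * E := by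
  have h1 : T.card = (T.filter fun z => (A w z ∧ A z v) ∨ (A v z ∧ A z w)).card +
      (T.filter fun z => ¬ ((A w z ∧ A z v) ∨ (A v z ∧ A z w))).card :=
    (Finset.card_filter_add_card_filter_not _).symm
  have h2 : 2 * (T.filter fun z => ¬ ((A w z ∧ A z v) ∨ (A v z ∧ A z w))).card ≤
      ∑ z ∈ T, (n A v z + n A z v) + ∑ z ∈ T, (n A w z + n A z w) := by
    rw [Finset.card_filter, Finset.mul_sum, ← Finset.sum_add_distrib]
    refine Finset.sum_le_sum fun z _ => ?_
    unfold n
    by_cases ha : A v z <;> by_cases hb : A z v <;> by_cases hc : A w z <;>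
      by_cases hd : A z w <;> simp [ha, hb, hc, hd]
  omega

end CNTM

open CNTM in
theorem specCNT : SpecCNT := by
  intro V _ A _ M B E hyp S
  induction S using Finset.strongInduction with
  | H S ih =>
  intro hS
  change 2 * (S ∩ B).card * S.card ≤ 2 * NN A S + (S ∩ B).card ^ 2 + (4 * E + 4) * (S ∩ B).card
  rcases Finset.eq_empty_or_nonempty (S ∩ B) with h0 | ⟨v, hv⟩
  · simp [h0]
  obtain ⟨hvS, hvB⟩ := Finset.mem_inter.1 hv
  set T := S.erase v with hT
  have hvT : v ∉ T := Finset.notMem_erase v S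
  have hST : S = insert v T := (Finset.insert_erase hvS).symm
  have hTS : T ⊂ S := Finset.erase_ssubset hvS
  have hcS : S.card = T.card + 1 := by
    rw [hST, Finset.card_insert_of_notMem hvT]
  have hcB : (S ∩ B).card = (T ∩ B).card + 1 := by
    rw [hST, Finset.insert_inter_of_mem hvB, Finset.card_insert_of_notMem]
    simp [hvT]
  have hN : NN A S = NN A T + ∑ z ∈ T, (n A v z + n A z v) := by
    conv_lhs => rw [hST]
    exact NN_insert A v T hvT
  rcases hyp S hS v hvS hvB with h1 | ⟨w, hwS, hwv, h2⟩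
  · have h3 : (T.filter fun w => A v w ∧ A w v).card ≤ E := by
      refine le_trans (Finset.card_le_card ?_) h1
      intro z hz
      simp only [Finset.mem_filter, hT, Finset.mem_erase] at hz ⊢
      tauto
    have h4 := one A v T E h3
    have h5 := ih T hTS (hTS.1.trans hS)
    change 2 * (T ∩ B).card * T.card ≤ 2 * NN A T + (T ∩ B).card ^ 2 +
      (4 * E + 4) * (T ∩ B).card at h5
    rw [hcS, hcB, hN]
    generalize (T ∩ B).card = b at *
    generalize T.card = s at *
    generalize NN A T = N at *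
    generalize ∑ z ∈ T, (n A v z + n A z v) = m at *
    nlinarith
  · have hwT : w ∈ T := Finset.mem_erase.2 ⟨hwv, hwS⟩
    set U := T.erase w with hU
    have hwU : w ∉ U := Finset.notMem_erase w T
    have hTU : T = insert w U := (Finset.insert_erase hwT).symm
    have hUT : U ⊂ T := Finset.erase_ssubset hwT
    have hcT : T.card = U.card + 1 := by
      rw [hTU, Finset.card_insert_of_notMem hwU]
    have hN2 : NN A T = NN A U + ∑ z ∈ U, (n A w z + n A z w) := by
      conv_lhs => rw [hTU]
      exact NN_insert A w U hwU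
    have hsum : ∑ z ∈ U, (n A v z + n A z v) ≤ ∑ z ∈ T, (n A v z + n A z v) :=
      Finset.sum_le_sum_of_subset hUT.1
    have h3 : (U.filter fun z => (A w z ∧ A z v) ∨ (A v z ∧ A z w)).card ≤ E := by
      refine le_trans (Finset.card_le_card ?_) h2
      intro z hz
      simp only [Finset.mem_filter, hU, hT, Finset.mem_erase] at hz ⊢
      tauto
    have h4 := two A v w U E h3
    have h5 := ih U (hUT.trans hTS) ((hUT.trans hTS).1.trans hS)
    change 2 * (U ∩ B).card * U.card ≤ 2 * NN A U + (U ∩ B).card ^ 2 +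
      (4 * E + 4) * (U ∩ B).card at h5
    have hUb : (U ∩ B).card ≤ U.card := Finset.card_le_card Finset.inter_subset_left
    by_cases hwB : w ∈ B
    · have hcB2 : (T ∩ B).card = (U ∩ B).card + 1 := by
        rw [hTU, Finset.insert_inter_of_mem hwB, Finset.card_insert_of_notMem]
        simp [hwU]
      rw [hcS, hcB, hN, hcB2, hcT, hN2]
      clear hN hN2 hcS hcB hcT hcB2
      generalize (U ∩ B).card = b at *
      generalize U.card = s at *
      generalize NN A U = N at *
      generalize ∑ z ∈ T, (n A v z + n A z v) = m at *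
      generalize ∑ z ∈ U, (n A v z + n A z v) = m' at *
      generalize ∑ z ∈ U, (n A w z + n A z w) = k at *
      nlinarith
    · have hcB2 : (T ∩ B).card = (U ∩ B).card := by
        rw [hTU, Finset.insert_inter_of_notMem hwB]
      rw [hcS, hcB, hN, hcB2, hcT, hN2]
      clear hN hN2 hcS hcB hcT hcB2
      generalize (U ∩ B).card = b at *
      generalize U.card = s at *
      generalize NN A U = N at *
      generalize ∑ z ∈ T, (n A v z + n A z v) = m at *
      generalize ∑ z ∈ U, (n A v z + n A z v) = m' at *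
      generalize ∑ z ∈ U, (n A w z + n A z w) = k at *
      nlinarith

end Pool.Agent.Lib.MPb3207d.HM
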