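import Pool.Agent.Lib.MP_b3207d_co.HM.Spec

/-! # CYC: directed 2-cycles and 3-cycles give replacements (helper4) -/

set_option autoImplicit false

namespace Pool.Agent.Lib.MPb3207d.HM

namespace CYCM

variable {R C α : Type} [DecidableEq R] [DecidableEq C] [DecidableEq α]

theorem two (c : R → C → α)
    (M B X : Finset (R × C)) (F : Finset α) (hc : Proper c) (hM : RM c M) (v : R × C) (hv : v ∈ M)
    (w : R × C) (hw : w ∈ M) (hwv : w ≠ v)
    (hwX : w ∉ X) (h1 : c v.1 w.2 ∉ cols c B) (h2 : c w.1 v.2 ∉ cols c B) (h3 : c v.1 w.2 ∉ F)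
    (h4 : c w.1 v.2 ∉ F) (h5 : c v.1 w.2 ≠ c w.1 v.2) : ∃ Q Q', Rep c M B v X F Q Q' := by
  have r1 : v.1 ≠ w.1 := fun h => hwv (hM.row v hv w hw h).symm
  have c1 : v.2 ≠ w.2 := fun h => hwv (hM.clm v hv w hw h).symm
  refine ⟨{v, w}, {(v.1, w.2), (w.1, v.2)}, ?_, ?_, ?_, ?_, ?_, ?_, ?_, ?_, ?_, ?_⟩
  · simp
  · intro e he
    rw [Finset.mem_insert, Finset.mem_singleton] at he
    rcases he with rfl | rfl
    · exact hv
    · exact hw
  · exact (Finset.card_le_two).trans (by norm_num)
  · intro e he hev
    rw [Finset.mem_insert, Finset.mem_singleton] at he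
    rcases he with rfl | rfl
    · exact absurd rfl hev
    · exact hwX
  · simp [rows, Finset.image_insert]
  · simp [HM.clms, Finset.image_insert, Finset.pair_comm]
  · constructor
    · intro e he f hf hef
      rw [Finset.mem_insert, Finset.mem_singleton] at he hf
      rcases he with rfl | rfl <;> rcases hf with rfl | rfl
      · rfl
      · exact absurd hef r1
      · exact absurd hef r1.symm
      · rfl
    · intro e he f hf hef
      rw [Finset.mem_insert, Finset.mem_singleton] at he hf
      rcases he with rfl | rfl <;> rcases hf with rfl | rfl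
      · rfl
      · exact absurd hef c1.symm
      · exact absurd hef c1
      · rfl
    · intro e he f hf hef
      rw [Finset.mem_insert, Finset.mem_singleton] at he hf
      rcases he with rfl | rfl <;> rcases hf with rfl | rfl
      · rfl
      · exact absurd hef h5
      · exact absurd hef h5.symm
      · rfl
  · intro e he
    rw [Finset.mem_insert, Finset.mem_singleton] at he
    rcases he with rfl | rfl
    · exact h1
    · exact h2
  · intro e he
    rw [Finset.mem_insert, Finset.mem_singleton] at he
    rcases he with rfl | rfl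
    · exact h3
    · exact h4
  · intro e he
    rw [Finset.mem_insert, Finset.mem_singleton] at he
    have hcols : cols c {v, w} = {col c v, col c w} := by simp [cols, Finset.image_insert]
    rw [hcols, Finset.mem_insert, Finset.mem_singleton]
    rcases he with rfl | rfl
    · rintro (h | h)
      · exact c1 (hc.row _ _ _ h).symm
      · exact r1 (hc.clm _ _ _ h)
    · rintro (h | h)
      · exact r1 (hc.clm _ _ _ h).symm
      · exact c1 (hc.row _ _ _ h)

theorem three (c : R → C → α)
    (M B X : Finset (R × C)) (F : Finset α) (hc : Proper c) (hM : RM c M) (v : R × C) (hv : v ∈ M)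
    (w : R × C) (hw : w ∈ M) (u : R × C) (hu : u ∈ M)
    (hwv : w ≠ v) (huv : u ≠ v) (hwu : w ≠ u) (hwX : w ∉ X) (huX : u ∉ X)
    (b1 : c v.1 w.2 ∉ cols c B) (b2 : c w.1 u.2 ∉ cols c B) (b3 : c u.1 v.2 ∉ cols c B)
    (f1 : c v.1 w.2 ∉ F) (f2 : c w.1 u.2 ∉ F) (f3 : c u.1 v.2 ∉ F)
    (d1 : c v.1 w.2 ≠ c w.1 u.2) (d2 : c w.1 u.2 ≠ c u.1 v.2) (d3 : c v.1 w.2 ≠ c u.1 v.2)
    (e1 : c v.1 w.2 ≠ col c u) (e2 : c w.1 u.2 ≠ col c v) (e3 : c u.1 v.2 ≠ col c w) :
    ∃ Q Q', Rep c M B v X F Q Q' := by
  have r1 : v.1 ≠ w.1 := fun h => hwv (hM.row v hv w hw h).symm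
  have r2 : v.1 ≠ u.1 := fun h => huv (hM.row v hv u hu h).symm
  have r3 : w.1 ≠ u.1 := fun h => hwu (hM.row w hw u hu h)
  have c1 : v.2 ≠ w.2 := fun h => hwv (hM.clm v hv w hw h).symm
  have c2 : v.2 ≠ u.2 := fun h => huv (hM.clm v hv u hu h).symm
  have c3 : w.2 ≠ u.2 := fun h => hwu (hM.clm w hw u hu h)
  have mem3 : ∀ {β : Type} [DecidableEq β] {x a b d : β}, x ∈ ({a, b, d} : Finset β) →
      x = a ∨ x = b ∨ x = d := by
    intro β _ x a b d h
    simpa using h
  refine ⟨{v, w, u}, {(v.1, w.2), (w.1, u.2), (u.1, v.2)}, ?_, ?_, ?_, ?_, ?_, ?_, ?_, ?_, ?_, ?_⟩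
  · simp
  · intro e he
    rcases mem3 he with rfl | rfl | rfl
    · exact hv
    · exact hw
    · exact hu
  · exact Finset.card_le_three
  · intro e he hev
    rcases mem3 he with rfl | rfl | rfl
    · exact absurd rfl hev
    · exact hwX
    · exact huX
  · simp [rows, Finset.image_insert]
  · ext y
    simp only [HM.clms, Finset.image_insert, Finset.image_singleton, Finset.mem_insert,
      Finset.mem_singleton]
    tauto
  · constructor
    · intro e he f hf hef
      rcases mem3 he with rfl | rfl | rfl <;> rcases mem3 hf with rfl | rfl | rfl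
      · rfl
      · exact absurd hef r1
      · exact absurd hef r2
      · exact absurd hef r1.symm
      · rfl
      · exact absurd hef r3
      · exact absurd hef r2.symm
      · exact absurd hef r3.symm
      · rfl
    · intro e he f hf hef
      rcases mem3 he with rfl | rfl | rfl <;> rcases mem3 hf with rfl | rfl | rfl
      · rfl
      · exact absurd hef c3
      · exact absurd hef c1.symm
      · exact absurd hef c3.symm
      · rfl
      · exact absurd hef c2.symm
      · exact absurd hef c1
      · exact absurd hef c2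
      · rfl
    · intro e he f hf hef
      rcases mem3 he with rfl | rfl | rfl <;> rcases mem3 hf with rfl | rfl | rfl
      · rfl
      · exact absurd hef d1
      · exact absurd hef d3
      · exact absurd hef d1.symm
      · rfl
      · exact absurd hef d2
      · exact absurd hef d3.symm
      · exact absurd hef d2.symm
      · rfl
  · intro e he
    rcases mem3 he with rfl | rfl | rfl
    · exact b1
    · exact b2
    · exact b3
  · intro e he
    rcases mem3 he with rfl | rfl | rfl
    · exact f1
    · exact f2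
    · exact f3
  · intro e he h
    have hcols : cols c {v, w, u} = {col c v, col c w, col c u} := by
      simp [cols, Finset.image_insert]
    rw [hcols] at h
    rcases mem3 he with rfl | rfl | rfl <;> rcases mem3 h with h | h | h
    · exact c1 (hc.row _ _ _ h).symm
    · exact r1 (hc.clm _ _ _ h)
    · exact e1 h
    · exact e2 h
    · exact c3 (hc.row _ _ _ h).symm
    · exact r3 (hc.clm _ _ _ h)
    · exact r2 (hc.clm _ _ _ h).symm
    · exact e3 h
    · exact c2 (hc.row _ _ _ h)

end CYCM

theorem specCYC : SpecCYC where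
  two := fun c M B X F hc hM v hv w hw h h' h1 h2 h3 h4 h5 =>
    CYCM.two c M B X F hc hM v hv w hw h h' h1 h2 h3 h4 h5
  three := fun c M B X F hc hM v hv w hw u hu a1 a2 a3 a4 a5 b1 b2 b3 f1 f2 f3 d1 d2 d3 e1 e2 e3 =>
    CYCM.three c M B X F hc hM v hv w hw u hu a1 a2 a3 a4 a5 b1 b2 b3 f1 f2 f3 d1 d2 d3 e1 e2 e3

end Pool.Agent.Lib.MPb3207d.HM
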