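import Pool.Agent.Lib.MP_b3207d_co.HM.Spec

/-!
# FIN: the main theorem from the other modules (MP_b3207d_co)
-/

set_option autoImplicit false

namespace Pool.Agent.Lib.MPb3207d.HM

namespace FINM

variable {R C α : Type} [DecidableEq R] [DecidableEq C] [DecidableEq α]

theorem card_rows {c : R → C → α} {M : Finset (R × C)} (hM : RM c M) :
    (rows M).card = M.card := by
  unfold rows
  apply Finset.card_image_of_injOn
  intro e he f hf h
  exact hM.row e he f hf h

theorem exists_max [Fintype R] [Fintype C] (c : R → C → α) :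
    ∃ M : Finset (R × C), RM c M ∧ ∀ N, RM c N → N.card ≤ M.card := by
  classical
  have hne : (Finset.univ.filter fun N : Finset (R × C) => RM c N).Nonempty := by
    refine ⟨∅, ?_⟩
    rw [Finset.mem_filter]
    refine ⟨Finset.mem_univ _, ?_⟩
    constructor <;> intro e he <;> exact absurd he (Finset.notMem_empty e)
  obtain ⟨M, hM, hmax⟩ := Finset.exists_max_image _ Finset.card hne
  rw [Finset.mem_filter] at hM
  refine ⟨M, hM.2, fun N hN => hmax N ?_⟩
  rw [Finset.mem_filter]
  exact ⟨Finset.mem_univ _, hN⟩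

theorem extract [Fintype R] [Fintype C] {c : R → C → α} {M : Finset (R × C)} (hM : RM c M)
    (h : Fintype.card R ≤ M.card) :
    ∃ f : R → C, Function.Injective f ∧ Function.Injective fun x => c x (f x) := by
  have hr : rows M = Finset.univ := by
    apply Finset.eq_univ_of_card
    apply le_antisymm (Finset.card_le_univ _)
    rw [card_rows hM]
    exact h
  have hx : ∀ x : R, ∃ y, (x, y) ∈ M := by
    intro x
    have hx : x ∈ rows M := by rw [hr]; exact Finset.mem_univ x
    unfold rows at hx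
    rw [Finset.mem_image] at hx
    obtain ⟨e, he, rfl⟩ := hx
    exact ⟨e.2, he⟩
  choose f hf using hx
  refine ⟨f, ?_, ?_⟩
  · intro x x' h
    have := hM.clm _ (hf x) _ (hf x') h
    exact congrArg Prod.fst this
  · intro x x' h
    have := hM.rbw _ (hf x) _ (hf x') h
    exact congrArg Prod.fst this

theorem one_le [Fintype R] [Fintype C] {c : R → C → α} {M : Finset (R × C)}
    (hmax : ∀ N, RM c N → N.card ≤ M.card) (h1 : 0 < Fintype.card R) (h2 : 0 < Fintype.card C) :
    1 ≤ M.card := by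
  obtain ⟨x⟩ := Fintype.card_pos_iff.1 h1
  obtain ⟨y⟩ := Fintype.card_pos_iff.1 h2
  have := hmax {(x, y)} (by
    constructor <;> intro e he f hf _ <;> rw [Finset.mem_singleton] at he hf <;> rw [he, hf])
  rwa [Finset.card_singleton] at this

end FINM

theorem specFIN (hUPP : SpecUPP) (hRLM : SpecRLM) (hLOW : SpecLOW) (hMON : SpecMON)
    (hFST : SpecFST) (hITR : SpecITR) (hWBD : SpecWBD) (hSTP : SpecSTP) : SpecFIN := by
  classical
  intro R C α _ _ c hRC hrow hclm μ S hS hA hineq
  have hP : Proper c := ⟨hrow, hclm⟩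
  obtain ⟨M, hM, hmax⟩ := FINM.exists_max c
  by_contra hno
  have hma : M.card < Fintype.card R := by
    by_contra h
    exact hno (FINM.extract hM (not_lt.1 h))
  -- notation
  obtain ⟨m, hm⟩ : ∃ m, M.card = m := ⟨_, rfl⟩
  obtain ⟨a, ha⟩ : ∃ a, Fintype.card R = a := ⟨_, rfl⟩
  rw [hm, ha] at hma
  rw [ha] at hineq hA
  have hm1 : 1 ≤ m := by
    rw [← hm]
    apply FINM.one_le hmax
    · rw [ha]; omega
    · rw [ha] at hRC; omega
  have h2m : a ≤ 2 * m := by
    have := hRLM c M hP hM hmax (by rw [hm, ha]; exact hma)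
    rw [hm] at this
    rw [ha] at hRC
    omega
  obtain ⟨K, hK⟩ : ∃ K, K = 8 * 3 ^ S := ⟨_, rfl⟩
  obtain ⟨q, hq⟩ : ∃ q, q = Nat.sqrt (2 * m) := ⟨_, rfl⟩
  obtain ⟨E, hE⟩ : ∃ E, E = 5 * K + 5 + q := ⟨_, rfl⟩
  have hq1 : 2 * M.card < (q + 1) ^ 2 := by
    rw [hm, hq]
    exact Nat.lt_succ_sqrt' _
  have hWK : ∀ s, s ≤ S → W (s + 1) ≤ K := by
    intro s hs
    rw [hK]
    exact (hWBD.mono _ _ (by omega)).trans (hWBD.bd S)
  -- the numbers
  have hS3 : (3 : ℝ) ≤ 3 ^ S := by
    calc (3 : ℝ) = 3 ^ 1 := by norm_num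
      _ ≤ 3 ^ S := pow_le_pow_right₀ (by norm_num) hS
  have hsq : (q : ℝ) ≤ Real.sqrt (2 * m) := by
    rw [hq]
    apply Real.le_sqrt_of_sq_le
    have := Nat.sqrt_le' (2 * m)
    exact_mod_cast this
  have hmaR : (m : ℝ) ≤ a := by exact_mod_cast hma.le
  have hsq2 : Real.sqrt (2 * m) ≤ 3 / 2 * Real.sqrt a := by
    rw [show (3 / 2 : ℝ) * Real.sqrt a = Real.sqrt ((3 / 2) ^ 2 * a) by
      rw [Real.sqrt_mul (by norm_num), Real.sqrt_sq (by norm_num)]]
    apply Real.sqrt_le_sqrt
    nlinarith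
  have hdiv : (m : ℝ) / 2 ^ (2 ^ S) ≤ (a : ℝ) / 2 ^ (2 ^ S) := by
    gcongr
  have hdiv0 : (0 : ℝ) ≤ (m : ℝ) / 2 ^ (2 ^ S) := by positivity
  have hER : (E : ℝ) = 40 * 3 ^ S + 5 + q := by
    rw [hE, hK]
    push_cast
    ring
  have hmain : 2 * (μ : ℝ) + ((4 * (E : ℝ) + 3) + (m : ℝ) / 2 ^ (2 ^ S)) ≤ a := by
    rw [hER]
    nlinarith
  have h2μ : 2 * μ ≤ a := by
    have : (2 * (μ : ℝ)) ≤ a := by
      have : (0 : ℝ) ≤ E := Nat.cast_nonneg E
      linarith
    exact_mod_cast this
  obtain ⟨D, hD⟩ : ∃ D, D = a - 2 * μ := ⟨_, rfl⟩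
  have hDa : 2 * μ + D ≤ a := by omega
  have hDR : (D : ℝ) = a - 2 * μ := by
    rw [hD, Nat.cast_sub h2μ]
    push_cast
    ring
  have hD1 : (4 * (E : ℝ) + 3) + (m : ℝ) / 2 ^ (2 ^ S) ≤ D := by
    rw [hDR]; linarith
  have hD27 : 27 ≤ D := by
    have h1 : (27 : ℝ) ≤ D := by
      have h2 : (0 : ℝ) ≤ q := Nat.cast_nonneg q
      rw [hER] at hD1
      linarith
    exact_mod_cast h1
  -- the number of cells
  have hcells : ∀ A : Finset α, (cells c A).card = {e : R × C | c e.1 e.2 ∈ A}.ncard := by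
    intro A
    rw [← Set.ncard_coe_finset]
    congr 1
    ext e
    simp [cells, col]
  -- levels
  obtain ⟨β, hβ⟩ : ∃ β : ℕ → ℕ, ∀ s, β s = (lev c M K s).card := ⟨_, fun _ => rfl⟩
  have hβm : ∀ s, β s ≤ m := by
    intro s
    rw [hβ, ← hm]
    exact Finset.card_le_card (hMON.sub c M K s)
  have hcc : ∀ s, (cols c (lev c M K s)).card = β s := by
    intro s
    rw [hβ]
    exact hMON.card c M _ hM (hMON.sub c M K s)
  have hupp : ∀ s, s ≤ S → (non c M (lev c M K s)).card + β s + m * (a - m - 1) ≤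
      (cells c (cols c (lev c M K s))).card := by
    intro s hs
    have := hUPP c M K s hP hM hmax (hWK s hs) (by rw [hm, ha]; exact hma) hRC
    rw [hm, ha, ← hβ] at this
    exact this
  obtain ⟨s, hsS, hs⟩ := hITR m S E D β hm1 hS (by rw [hβ, ← hm]; rfl)
    (fun s => by rw [hβ, hβ]; exact Finset.card_le_card (hMON.mono c M K s))
    (by
      intro s hsS hs
      apply hSTP.step a m _ _ _ μ D E hma (hβm s) hDa _
        (by
          have := hLOW c M K q E s hP hM hq1 (by rw [hE])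
          rw [hm, ← hβ] at this
          exact this)
      refine (hupp s hsS.le).trans ?_
      rw [hcells, ← hcc s]
      apply hA
      · rw [hcc s]; omega
      · rw [hcc s]; exact (hβm s).trans hma.le) hD1
  -- the last step
  have hsub1 : cols c (lev c M K s) ⊆ cols c M :=
    Finset.image_subset_image (hMON.sub c M K s)
  obtain ⟨A, hA1, hA2, hA3⟩ := Finset.exists_subsuperset_card_eq hsub1
    (n := (m + 1) / 2) (by rw [hcc]; omega)
    (by rw [hMON.card c M M hM (Finset.Subset.refl M), hm]; omega)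
  have hcA : (cells c (cols c (lev c M K s))).card ≤ (m + 1) / 2 * μ := by
    calc (cells c (cols c (lev c M K s))).card ≤ (cells c A).card := by
          apply Finset.card_le_card
          intro e he
          unfold cells at he ⊢
          rw [Finset.mem_filter] at he ⊢
          exact ⟨he.1, hA1 he.2⟩
      _ ≤ (m + 1) / 2 * μ := by
          rw [hcells, ← hA3]
          apply hA
          · rw [hA3]; omega
          · rw [hA3]; omega
  have hf := hFST c M K s hP hM hmax (hWK s hsS) (by rw [hm, ha]; exact hma) hRC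
  rw [hm, ← hβ] at hf
  exact hSTP.last a m _ _ μ D hm1 hma hs hDa hD27 ((hupp s hsS).trans hcA) hf

end Pool.Agent.Lib.MPb3207d.HM
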