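import Pool.Agent.Lib.MP_b3207d_co.HM.Spec

/-! MP_b3207d_co, module FST: the last step (helper61). -/

set_option autoImplicit false

namespace Pool.Agent.Lib.MPb3207d.HM

namespace FSTM

theorem card_fst {E : Type} (M : Finset E) (p : E × E → Prop) [DecidablePred p]
    (h : ∀ w ∈ M, ∀ u ∈ M, ∀ u' ∈ M, p (w, u) → p (w, u') → u = u') :
    ((M ×ˢ M).filter p).card ≤ M.card := by
  refine Finset.card_le_card_of_injOn Prod.fst ?_ ?_
  · intro q hq
    have hq2 := Finset.mem_filter.1 (Finset.mem_coe.1 hq)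
    exact Finset.mem_coe.2 (Finset.mem_product.1 hq2.1).1
  · rintro ⟨w, u⟩ hq ⟨w', u'⟩ hq' he
    have hq2 := Finset.mem_filter.1 (Finset.mem_coe.1 hq)
    have hq3 := Finset.mem_filter.1 (Finset.mem_coe.1 hq')
    have he' : w = w' := he
    subst he'
    have h1 := Finset.mem_product.1 hq2.1
    have h2 := Finset.mem_product.1 hq3.1
    have := h w h1.1 u h1.2 u' h2.2 hq2.2 hq3.2
    rw [this]

theorem card_snd {E : Type} (M : Finset E) (p : E × E → Prop) [DecidablePred p]
    (h : ∀ w ∈ M, ∀ w' ∈ M, ∀ u ∈ M, p (w, u) → p (w', u) → w = w') :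
    ((M ×ˢ M).filter p).card ≤ M.card := by
  refine Finset.card_le_card_of_injOn Prod.snd ?_ ?_
  · intro q hq
    have hq2 := Finset.mem_filter.1 (Finset.mem_coe.1 hq)
    exact Finset.mem_coe.2 (Finset.mem_product.1 hq2.1).2
  · rintro ⟨w, u⟩ hq ⟨w', u'⟩ hq' he
    have hq2 := Finset.mem_filter.1 (Finset.mem_coe.1 hq)
    have hq3 := Finset.mem_filter.1 (Finset.mem_coe.1 hq')
    have he' : u = u' := he
    subst he'
    have h1 := Finset.mem_product.1 hq2.1
    have h2 := Finset.mem_product.1 hq3.1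
    have := h w h1.1 w' h2.1 u h1.2 hq2.2 hq3.2
    rw [this]

theorem exists_notMem {R : Type} [DecidableEq R] [Fintype R] (S : Finset R)
    (h : S.card < Fintype.card R) : ∃ x, x ∉ S := by
  by_contra hc
  push Not at hc
  have h1 : (Finset.univ : Finset R) ⊆ S := fun x _ => hc x
  have h2 := Finset.card_le_card h1
  rw [Finset.card_univ] at h2
  omega

/-- the elements of `M` whose value avoids `A` -/
theorem card_good {E α : Type} [DecidableEq α] (M : Finset E) (f : E → α) (A : Finset α)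
    (hf : ∀ w ∈ M, ∀ w' ∈ M, f w = f w' → w = w') :
    M.card ≤ (M.filter fun w => f w ∉ A).card + A.card := by
  have h1 := Finset.card_filter_add_card_filter_not (s := M) (fun w => f w ∉ A)
  have h2 : (M.filter fun w => ¬ f w ∉ A).card ≤ A.card := by
    refine Finset.card_le_card_of_injOn f ?_ ?_
    · intro w hw
      have hw2 := Finset.mem_filter.1 (Finset.mem_coe.1 hw)
      exact Finset.mem_coe.2 (not_not.1 hw2.2)
    · intro w hw w' hw' he
      have hw2 := Finset.mem_filter.1 (Finset.mem_coe.1 hw)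
      have hw3 := Finset.mem_filter.1 (Finset.mem_coe.1 hw')
      exact hf w hw2.1 w' hw3.1 he
  omega

end FSTM

open FSTM

/-- **FST**. -/
theorem specFST (hATH : SpecATH) (_hMON : SpecMON) : SpecFST := by
  intro R C α _ _ _ _ _ c M K s hc hM hmax hW hR hC
  set L := lev c M K s with hL
  set A := cols c L with hA
  have hAL : A.card ≤ L.card := Finset.card_image_le
  obtain ⟨x, hx⟩ := exists_notMem (rows M) (lt_of_le_of_lt Finset.card_image_le hR)
  obtain ⟨y, hy⟩ := exists_notMem (clms M)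
    (lt_of_le_of_lt Finset.card_image_le (lt_of_lt_of_le hR hC))
  -- the two families
  have hG := card_good M (fun w => c x w.2) A
    (fun w hw w' hw' he => hM.clm w hw w' hw' (hc.row x _ _ he))
  have hG' := card_good M (fun u => c u.1 y) A
    (fun w hw w' hw' he => hM.row w hw w' hw' (hc.clm _ _ y he))
  set G := M.filter fun w => c x w.2 ∉ A with hGd
  set G' := M.filter fun u => c u.1 y ∉ A with hGd'
  -- the exceptional pairs
  have d0 := card_fst M (fun p => p.1 = p.2) (fun w _ u _ u' _ h1 h2 => by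
    have a1 : w = u := h1
    have a2 : w = u' := h2
    rw [← a1, ← a2])
  have d1 := card_fst M (fun p => c x p.1.2 = c p.1.1 p.2.2) (fun w _ u hu u' hu' h1 h2 => by
    have a1 : c x w.2 = c w.1 u.2 := h1
    have a2 : c x w.2 = c w.1 u'.2 := h2
    exact hM.clm u hu u' hu' (hc.row w.1 _ _ (a1.symm.trans a2)))
  have d2 := card_snd M (fun p => c p.1.1 p.2.2 = c p.2.1 y) (fun w hw w' hw' u _ h1 h2 => by
    have a1 : c w.1 u.2 = c u.1 y := h1
    have a2 : c w'.1 u.2 = c u.1 y := h2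
    exact hM.row w hw w' hw' (hc.clm _ _ u.2 (a1.trans a2.symm)))
  have d3 := card_fst M (fun p => c x p.1.2 = c p.2.1 y) (fun w _ u hu u' hu' h1 h2 => by
    have a1 : c x w.2 = c u.1 y := h1
    have a2 : c x w.2 = c u'.1 y := h2
    exact hM.row u hu u' hu' (hc.clm _ _ y (a1.symm.trans a2)))
  have d4 := card_fst M (fun p => c x p.1.2 = col c p.2) (fun w _ u hu u' hu' h1 h2 => by
    have a1 : c x w.2 = col c u := h1
    have a2 : c x w.2 = col c u' := h2
    exact hM.rbw u hu u' hu' (a1.symm.trans a2))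
  have d5 := card_fst M (fun p => c p.2.1 y = col c p.1) (fun w _ u hu u' hu' h1 h2 => by
    have a1 : c u.1 y = col c w := h1
    have a2 : c u'.1 y = col c w := h2
    exact hM.row u hu u' hu' (hc.clm _ _ y (a1.trans a2.symm)))
  -- the cover
  have hcov : G ×ˢ G' ⊆ non c M L ∪ ((M ×ˢ M).filter (fun p => p.1 = p.2) ∪
      ((M ×ˢ M).filter (fun p => c x p.1.2 = c p.1.1 p.2.2) ∪
      ((M ×ˢ M).filter (fun p => c p.1.1 p.2.2 = c p.2.1 y) ∪
      ((M ×ˢ M).filter (fun p => c x p.1.2 = c p.2.1 y) ∪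
      ((M ×ˢ M).filter (fun p => c x p.1.2 = col c p.2) ∪
      (M ×ˢ M).filter (fun p => c p.2.1 y = col c p.1)))))) := by
    rintro ⟨w, u⟩ hp
    have hp1 := Finset.mem_product.1 hp
    have hw : w ∈ M ∧ c x w.2 ∉ A := Finset.mem_filter.1 hp1.1
    have hu : u ∈ M ∧ c u.1 y ∉ A := Finset.mem_filter.1 hp1.2
    have hMM : (w, u) ∈ M ×ˢ M := Finset.mem_product.2 ⟨hw.1, hu.1⟩
    simp only [Finset.mem_union, Finset.mem_filter, hMM, true_and, non]
    by_cases hwu : w = u
    · exact Or.inr (Or.inl hwu)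
    by_cases hn : c w.1 u.2 ∈ cols c L
    · exact Or.inl ⟨hwu, hn⟩
    · rcases hATH.three c M K s hc hM hmax hW x y hx hy w hw.1 u hu.1 hwu hw.2 hn hu.2 with
        h | h | h | h | h
      · exact Or.inr (Or.inr (Or.inl h))
      · exact Or.inr (Or.inr (Or.inr (Or.inl h)))
      · exact Or.inr (Or.inr (Or.inr (Or.inr (Or.inl h))))
      · exact Or.inr (Or.inr (Or.inr (Or.inr (Or.inr (Or.inl h)))))
      · exact Or.inr (Or.inr (Or.inr (Or.inr (Or.inr (Or.inr h)))))
  have hcard := Finset.card_le_card hcov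
  rw [Finset.card_product] at hcard
  have u1 := Finset.card_union_le (non c M L) ((M ×ˢ M).filter (fun p => p.1 = p.2) ∪
      ((M ×ˢ M).filter (fun p => c x p.1.2 = c p.1.1 p.2.2) ∪
      ((M ×ˢ M).filter (fun p => c p.1.1 p.2.2 = c p.2.1 y) ∪
      ((M ×ˢ M).filter (fun p => c x p.1.2 = c p.2.1 y) ∪
      ((M ×ˢ M).filter (fun p => c x p.1.2 = col c p.2) ∪
      (M ×ˢ M).filter (fun p => c p.2.1 y = col c p.1))))))
  have u2 := Finset.card_union_le ((M ×ˢ M).filter (fun p => p.1 = p.2))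
      ((M ×ˢ M).filter (fun p => c x p.1.2 = c p.1.1 p.2.2) ∪
      ((M ×ˢ M).filter (fun p => c p.1.1 p.2.2 = c p.2.1 y) ∪
      ((M ×ˢ M).filter (fun p => c x p.1.2 = c p.2.1 y) ∪
      ((M ×ˢ M).filter (fun p => c x p.1.2 = col c p.2) ∪
      (M ×ˢ M).filter (fun p => c p.2.1 y = col c p.1)))))
  have u3 := Finset.card_union_le ((M ×ˢ M).filter (fun p => c x p.1.2 = c p.1.1 p.2.2))
      ((M ×ˢ M).filter (fun p => c p.1.1 p.2.2 = c p.2.1 y) ∪
      ((M ×ˢ M).filter (fun p => c x p.1.2 = c p.2.1 y) ∪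
      ((M ×ˢ M).filter (fun p => c x p.1.2 = col c p.2) ∪
      (M ×ˢ M).filter (fun p => c p.2.1 y = col c p.1))))
  have u4 := Finset.card_union_le ((M ×ˢ M).filter (fun p => c p.1.1 p.2.2 = c p.2.1 y))
      ((M ×ˢ M).filter (fun p => c x p.1.2 = c p.2.1 y) ∪
      ((M ×ˢ M).filter (fun p => c x p.1.2 = col c p.2) ∪
      (M ×ˢ M).filter (fun p => c p.2.1 y = col c p.1)))
  have u5 := Finset.card_union_le ((M ×ˢ M).filter (fun p => c x p.1.2 = c p.2.1 y))
      ((M ×ˢ M).filter (fun p => c x p.1.2 = col c p.2) ∪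
      (M ×ˢ M).filter (fun p => c p.2.1 y = col c p.1))
  have u6 := Finset.card_union_le ((M ×ˢ M).filter (fun p => c x p.1.2 = col c p.2))
      ((M ×ˢ M).filter (fun p => c p.2.1 y = col c p.1))
  have hsq : (M.card - L.card) ^ 2 ≤ G.card * G'.card := by
    rw [sq]
    exact Nat.mul_le_mul (by omega) (by omega)
  omega

end Pool.Agent.Lib.MPb3207d.HM
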