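import Pool.Agent.Lib.MP_b3207d_co.HM.Spec

/-!
# Module ITR: the iteration
-/

set_option autoImplicit false

namespace Pool.Agent.Lib.MPb3207d.HM

namespace ITRM

/-- one step, in the reals -/
theorem step {m b b' d e : ℝ} (hbb : b' ≤ b) (he : 0 ≤ e)
    (h : 2 * b' * m + b * (d + 1) ≤ b' ^ 2 + (4 * e + 4) * b' + b * m) :
    m * (m - b) + b * (d - 4 * e - 3) ≤ (m - b') ^ 2 := by
  have h1 : (4 * e + 4) * b' ≤ (4 * e + 4) * b := mul_le_mul_of_nonneg_left hbb (by linarith)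
  nlinarith

end ITRM

open ITRM in
theorem specITR : SpecITR := by
  intro m S E D β hm hS h0 hmono hstep hD
  by_contra hc
  push Not at hc
  have hm0 : (0 : ℝ) < m := by exact_mod_cast hm
  obtain ⟨g, hg⟩ : ∃ g : ℝ, g = D - 4 * E - 3 := ⟨_, rfl⟩
  have hP : (0 : ℝ) < 2 ^ (2 ^ S) := by positivity
  have hg1 : (m : ℝ) / 2 ^ (2 ^ S) ≤ g := by rw [hg]; linarith
  have hg0 : 0 ≤ g := le_trans (by positivity) hg1
  have hβm : ∀ s, β s ≤ m := by
    intro s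
    induction s with
    | zero => rw [h0]
    | succ s ih => exact (hmono s).trans ih
  have hb0 : ∀ s, (0 : ℝ) ≤ β s := fun s => Nat.cast_nonneg _
  have hbm : ∀ s, (β s : ℝ) ≤ m := fun s => by exact_mod_cast hβm s
  -- one step
  have key : ∀ s, s < S → (m : ℝ) * (m - β s) + β s * g ≤ (m - β (s + 1)) ^ 2 := by
    intro s hs
    have h1 := hstep s hs (hc s hs.le)
    have h2 : 2 * (β (s + 1) : ℝ) * m + β s * (D + 1) ≤
        (β (s + 1) : ℝ) ^ 2 + (4 * E + 4) * β (s + 1) + β s * m := by exact_mod_cast h1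
    rw [hg]
    exact step (by exact_mod_cast hmono s) (Nat.cast_nonneg _) h2
  obtain ⟨y, hy⟩ : ∃ y : ℕ → ℝ, y = fun s => ((m : ℝ) - β s) / m := ⟨_, rfl⟩
  have hy0 : ∀ s, 0 ≤ y s := fun s => by
    rw [hy]
    exact div_nonneg (by linarith [hbm s]) hm0.le
  have hyy : ∀ s, s < S → y s ≤ y (s + 1) ^ 2 := by
    intro s hs
    have h1 := key s hs
    have h2 : 0 ≤ (β s : ℝ) * g := mul_nonneg (hb0 s) hg0
    rw [hy]
    simp only
    rw [div_pow, div_le_div_iff₀ hm0 (by positivity)]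
    have h3 : (m : ℝ) * (m - β s) ≤ (m - β (s + 1)) ^ 2 := by linarith
    calc ((m : ℝ) - β s) * m ^ 2 = (m * (m - β s)) * m := by ring
      _ ≤ (m - β (s + 1)) ^ 2 * m := mul_le_mul_of_nonneg_right h3 hm0.le
  have hy1 : (1 / 2 : ℝ) ^ (2 ^ S) ≤ y 1 ^ 2 := by
    have h1 := key 0 hS
    rw [h0] at h1
    have h2 : (m : ℝ) * g ≤ (m - β (0 + 1)) ^ 2 := by linarith
    rw [hy]
    simp only
    have e1 : (1 / 2 : ℝ) ^ (2 ^ S) = 1 / 2 ^ (2 ^ S) := by rw [one_div, inv_pow, one_div]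
    rw [e1, div_pow, div_le_div_iff₀ hP (by positivity), one_mul]
    have h3 : (m : ℝ) ≤ 2 ^ (2 ^ S) * g := by
      rw [div_le_iff₀ hP] at hg1
      linarith
    calc (m : ℝ) ^ 2 = m * m := sq _
      _ ≤ m * (2 ^ (2 ^ S) * g) := mul_le_mul_of_nonneg_left h3 hm0.le
      _ = 2 ^ (2 ^ S) * (m * g) := by ring
      _ ≤ 2 ^ (2 ^ S) * (m - β 1) ^ 2 := mul_le_mul_of_nonneg_left h2 hP.le
      _ = (m - β 1) ^ 2 * 2 ^ (2 ^ S) := mul_comm _ _
  have hind : ∀ s, s + 1 ≤ S → (1 / 2 : ℝ) ^ (2 ^ S) ≤ y (s + 1) ^ (2 ^ (s + 1)) := by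
    intro s
    induction s with
    | zero =>
      intro _
      simpa using hy1
    | succ s ih =>
      intro hs
      have h1 := ih (by omega)
      have h2 := hyy (s + 1) (by omega)
      calc (1 / 2 : ℝ) ^ (2 ^ S) ≤ y (s + 1) ^ (2 ^ (s + 1)) := h1
        _ ≤ (y (s + 1 + 1) ^ 2) ^ (2 ^ (s + 1)) := pow_le_pow_left₀ (hy0 _) h2 _
        _ = y (s + 1 + 1) ^ (2 ^ (s + 1 + 1)) := by
            rw [← pow_mul]
            congr 1
            rw [pow_succ 2 (s + 1), mul_comm]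
  obtain ⟨S', rfl⟩ : ∃ S', S = S' + 1 := ⟨S - 1, by omega⟩
  have h1 := hind S' le_rfl
  have h2 : (1 / 2 : ℝ) ≤ y (S' + 1) :=
    le_of_pow_le_pow_left₀ (by positivity) (hy0 _) h1
  rw [hy] at h2
  simp only at h2
  rw [le_div_iff₀ hm0] at h2
  have h3 := hc (S' + 1) le_rfl
  have h4 : (m : ℝ) < 2 * β (S' + 1) := by exact_mod_cast h3
  linarith

end Pool.Agent.Lib.MPb3207d.HM
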