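import Pool.Agent.Lib.MP_b3207d_co.HM.Spec

/-!
# HM, module LOW: lower bound for the number of non-arcs
-/

set_option autoImplicit false

namespace Pool.Agent.Lib.MPb3207d.HM

theorem specLOW (hBAD : SpecBAD) (hCNT : SpecCNT) : SpecLOW := by
  intro R C α _ _ _ c M K q E s hp hrm hq hE
  have hmem : ∀ v, v ∈ lev c M K (s + 1) → v ∈ M ∧ ¬ Rob c M (lev c M K s) K v := by
    intro v hv
    classical
    rw [lev] at hv
    simpa using hv
  have hsub : lev c M K (s + 1) ⊆ M := fun v hv => (hmem v hv).1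
  have h := hCNT (V := R × C) (fun v w => c v.1 w.2 ∉ cols c (lev c M K s)) M
    (lev c M K (s + 1)) E ?_ M (Finset.Subset.refl M)
  · rw [Finset.inter_eq_right.2 hsub] at h
    have e : ((M ×ˢ M).filter fun p => p.1 ≠ p.2 ∧ ¬ (c p.1.1 p.2.2 ∉ cols c (lev c M K s))) =
        non c M (lev c M K s) := by
      unfold non
      refine Finset.filter_congr fun p _ => ?_
      rw [not_not]
    rw [e] at h
    exact h
  · intro S hS v hvS hv
    obtain ⟨hvM, hnr⟩ := hmem v hv
    rcases hBAD c M (lev c M K s) K q E hp hrm hq hE v hvM hnr S hS with h | ⟨w, hw, h⟩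
    · left
      exact h
    · right
      rw [par, Finset.mem_filter] at hw
      exact ⟨w, hw.1, hw.2.1, h⟩

end Pool.Agent.Lib.MPb3207d.HM
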