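import Pool.Agent.Lib.MP_b3207d_co.HM.Spec

/-!
# Rainbow matchings when no colour is frequent: monotonicity of the levels (module MON)
-/

set_option autoImplicit false

namespace Pool.Agent.Lib.MPb3207d.HM

namespace MONM

variable {R C α : Type} [DecidableEq R] [DecidableEq C] [DecidableEq α]

theorem rob_anti (c : R → C → α) (M B B' : Finset (R × C)) (K : ℕ) (v : R × C) (hB : B' ⊆ B)
    (h : Rob c M B K v) : Rob c M B' K v := by
  intro X F hX hF
  obtain ⟨Q, Q', hQ⟩ := h X F hX hF
  refine ⟨Q, Q', hQ.mem, hQ.sub, hQ.card, hQ.avoid, hQ.rows, hQ.clms, hQ.rm, ?_, hQ.colF, hQ.colQ⟩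
  intro e he hc
  exact hQ.colB e he (Finset.image_subset_image hB hc)

theorem sub (c : R → C → α) (M : Finset (R × C)) (K s : ℕ) : lev c M K s ⊆ M := by
  classical
  cases s with
  | zero => exact Finset.Subset.refl M
  | succ s =>
    rw [lev]
    exact Finset.filter_subset _ _

theorem mono (c : R → C → α) (M : Finset (R × C)) (K s : ℕ) :
    lev c M K (s + 1) ⊆ lev c M K s := by
  classical
  induction s with
  | zero => exact sub c M K 1
  | succ s ih =>
    intro v hv
    rw [lev, Finset.mem_filter] at hv
    rw [lev, Finset.mem_filter]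
    exact ⟨hv.1, fun h => hv.2 (rob_anti c M _ _ K v ih h)⟩

end MONM

theorem specMON : SpecMON where
  sub := fun c M K s => MONM.sub c M K s
  mono := fun c M K s => MONM.mono c M K s
  card := by
    intro R C α _ _ _ c M B hM hB
    refine Finset.card_image_of_injOn ?_
    intro e he f hf hef
    exact hM.rbw e (hB he) f (hB hf) hef

end Pool.Agent.Lib.MPb3207d.HM
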