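import Pool.Agent.Lib.MP_b3207d_co.HM.Spec

/-!
# MP_b3207d_co, HM, module REC (helper53): the colours of at most three edges can be freed
-/

set_option autoImplicit false

namespace Pool.Agent.Lib.MPb3207d.HM

namespace RECM

variable {R C α : Type} [DecidableEq R] [DecidableEq C] [DecidableEq α]

/-- the conclusion, with a bound for the number of changes -/
def Concl (c : R → C → α) (M N X H : Finset (R × C)) (F : Finset α) (b : ℕ) : Prop :=
  ∃ N' : Finset (R × C), RM c N' ∧ N'.card = M.card ∧ rows N' = rows N ∧ clms N' = clms N ∧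
    (∀ h ∈ H, col c h ∉ cols c N') ∧ (∀ e ∈ N, e ∈ X → e ∈ N') ∧
    (∀ a ∈ F, a ∈ cols c N' → a ∈ cols c N) ∧ (M \ N').card ≤ b

/-- the statement for level `s` -/
def Stat (c : R → C → α) (M : Finset (R × C)) (K s : ℕ) : Prop :=
  ∀ (N X H : Finset (R × C)) (F : Finset α)
    (p q t : ℕ), RM c N → N.card = M.card → H ⊆ N → H ⊆ M → Disjoint H (lev c M K s) →
    Disjoint H X → H.card ≤ 3 → X.card ≤ p → F.card ≤ q → (M \ N).card ≤ t →
    p + q + t + 2 + 2 * T s + W s ≤ K → Concl c M N X H F (t + 3 * T s)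

theorem mem_cols {c : R → C → α} {N : Finset (R × C)} {e : R × C} (h : e ∈ N) : col c e ∈ cols c N :=
  Finset.mem_image_of_mem _ h

theorem card_rows {c : R → C → α} {N Q : Finset (R × C)} (hN : RM c N) (hQ : Q ⊆ N) :
    (rows Q).card = Q.card :=
  Finset.card_image_of_injOn fun e he f hf h => hN.row e (hQ he) f (hQ hf) h

theorem rows_exch {N Q Q' : Finset (R × C)} (hQ : Q ⊆ N) (h : rows Q' = rows Q) :
    rows ((N \ Q) ∪ Q') = rows N := by
  unfold rows at h ⊢
  rw [Finset.image_union, h, ← Finset.image_union, Finset.sdiff_union_of_subset hQ]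

theorem clms_exch {N Q Q' : Finset (R × C)} (hQ : Q ⊆ N) (h : clms Q' = clms Q) :
    clms ((N \ Q) ∪ Q') = clms N := by
  unfold clms at h ⊢
  rw [Finset.image_union, h, ← Finset.image_union, Finset.sdiff_union_of_subset hQ]

/-- Claim A: one edge -/
theorem claimA (hSWP : SpecSWP) (c : R → C → α) (M : Finset (R × C)) (K s : ℕ)
    (ih : Stat c M K s) (N X : Finset (R × C)) (F : Finset α) (v : R × C) (p q t : ℕ)
    (hN : RM c N) (hNM : N.card = M.card) (hvN : v ∈ N) (hvM : v ∈ M) (hv : v ∉ lev c M K (s + 1))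
    (hvX : v ∉ X) (hX : X.card ≤ p) (hF : F.card ≤ q) (ht : (M \ N).card ≤ t)
    (hK : p + q + t + W (s + 1) ≤ K) : Concl c M N X {v} F (t + T (s + 1)) := by
  have hW : W (s + 1) = W s + 8 + 2 * T s := rfl
  have hT : T (s + 1) = 3 * T s + 3 := rfl
  have hRob : Rob c M (lev c M K s) K v := by
    by_contra hcon
    apply hv
    simp only [lev, Finset.mem_filter]
    exact ⟨hvM, hcon⟩
  have hNM' : (N \ M).card = (M \ N).card := Finset.card_sdiff_comm hNM
  obtain ⟨Q, Q', hR⟩ := hRob (X ∪ (M \ N)) (F ∪ cols c (N \ M) ∪ cols c X) (by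
      have h1 := Finset.card_union_le X (M \ N)
      omega) (by
      have h1 := Finset.card_union_le (F ∪ cols c (N \ M)) (cols c X)
      have h2 := Finset.card_union_le F (cols c (N \ M))
      have h3 : (cols c (N \ M)).card ≤ (N \ M).card := Finset.card_image_le
      have h4 : (cols c X).card ≤ X.card := Finset.card_image_le
      omega)
  have hQN : Q ⊆ N := by
    intro w hw
    by_cases hwv : w = v
    · rw [hwv]; exact hvN
    · have h1 := hR.avoid w hw hwv
      by_contra hcon
      apply h1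
      rw [Finset.mem_union, Finset.mem_sdiff]
      exact Or.inr ⟨hR.sub hw, hcon⟩
  have hQX : ∀ w ∈ Q, w ∉ X := by
    intro w hw
    by_cases hwv : w = v
    · rw [hwv]; exact hvX
    · have h1 := hR.avoid w hw hwv
      intro hcon
      apply h1
      rw [Finset.mem_union]
      exact Or.inl hcon
  have hQQ : Q'.card = Q.card := by
    rw [← card_rows hN hQN, ← hR.rows]
    exact (card_rows hR.rm (Finset.Subset.refl Q')).symm
  have hQ3 := hR.card
  set H : Finset (R × C) := (N ∩ M).filter (fun h => col c h ∈ cols c Q') with hH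
  have memH : ∀ h, h ∈ H ↔ h ∈ N ∧ h ∈ M ∧ col c h ∈ cols c Q' := by
    intro h
    rw [hH, Finset.mem_filter, Finset.mem_inter, and_assoc]
  have hHcard : H.card ≤ 3 := by
    have h1 : H.card ≤ (cols c Q').card := by
      apply Finset.card_le_card_of_injOn (col c)
      · intro h hh
        exact ((memH h).1 hh).2.2
      · intro h hh h' hh' heq
        exact hN.rbw h ((memH h).1 hh).1 h' ((memH h').1 hh').1 heq
    have h2 : (cols c Q').card ≤ Q'.card := Finset.card_image_le
    omega
  have hlev : Disjoint H (lev c M K s) := by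
    rw [Finset.disjoint_left]
    intro h hh hl
    obtain ⟨_, _, h3⟩ := (memH h).1 hh
    obtain ⟨e, he, heq⟩ := Finset.mem_image.1 h3
    apply hR.colB e he
    rw [heq]
    exact mem_cols hl
  have hdX : Disjoint H (X ∪ Q) := by
    rw [Finset.disjoint_left]
    intro h hh hl
    obtain ⟨_, _, h3⟩ := (memH h).1 hh
    obtain ⟨e, he, heq⟩ := Finset.mem_image.1 h3
    rcases Finset.mem_union.1 hl with h4 | h4
    · apply hR.colF e he
      rw [heq, Finset.mem_union]
      exact Or.inr (mem_cols h4)
    · apply hR.colQ e he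
      rw [heq]
      exact mem_cols h4
  obtain ⟨N₁, k1, k2, k3, k4, k5, k6, k7, k8⟩ := ih N (X ∪ Q) H (F ∪ cols c Q') (p + 3) (q + 3) t hN hNM
    (fun h hh => ((memH h).1 hh).1) (fun h hh => ((memH h).1 hh).2.1) hlev hdX hHcard (by
      have h1 := Finset.card_union_le X Q
      omega) (by
      have h1 := Finset.card_union_le F (cols c Q')
      have h2 : (cols c Q').card ≤ Q'.card := Finset.card_image_le
      omega) ht (by omega)
  have hdis : ∀ e ∈ Q', col c e ∉ cols c N₁ := by
    intro e he hcon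
    have h1 := k7 (col c e) (Finset.mem_union_right _ (mem_cols he)) hcon
    obtain ⟨f, hf, hfe⟩ := Finset.mem_image.1 h1
    by_cases hfM : f ∈ M
    · have h2 : f ∈ H := (memH f).2 ⟨hf, hfM, by rw [hfe]; exact mem_cols he⟩
      apply k5 f h2
      rw [hfe]
      exact hcon
    · apply hR.colF e he
      rw [← hfe, Finset.mem_union, Finset.mem_union]
      exact Or.inl (Or.inr (mem_cols (Finset.mem_sdiff.2 ⟨hf, hfM⟩)))
  have hQN1 : Q ⊆ N₁ := fun w hw => k6 w (hQN hw) (Finset.mem_union_right _ hw)
  obtain ⟨j1, j2⟩ := hSWP c N₁ Q Q' k1 hQN1 hR.rm (by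
    intro e he f hf hfQ
    refine ⟨?_, ?_, ?_⟩
    · intro heq
      have h1 : e.1 ∈ rows Q := by
        rw [← hR.rows]
        exact Finset.mem_image_of_mem _ he
      obtain ⟨w, hw, hwe⟩ := Finset.mem_image.1 h1
      have h2 := k1.row w (hQN1 hw) f hf (hwe.trans heq)
      apply hfQ
      rw [← h2]
      exact hw
    · intro heq
      have h1 : e.2 ∈ clms Q := by
        rw [← hR.clms]
        exact Finset.mem_image_of_mem _ he
      obtain ⟨w, hw, hwe⟩ := Finset.mem_image.1 h1
      have h2 := k1.clm w (hQN1 hw) f hf (hwe.trans heq)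
      apply hfQ
      rw [← h2]
      exact hw
    · intro heq
      apply hdis e he
      rw [heq]
      exact mem_cols hf)
  refine ⟨(N₁ \ Q) ∪ Q', j1, by omega, (rows_exch hQN1 hR.rows).trans k3,
    (clms_exch hQN1 hR.clms).trans k4, ?_, ?_, ?_, ?_⟩
  · intro h hh
    rw [Finset.mem_singleton] at hh
    subst hh
    intro hcon
    obtain ⟨e, he, hev⟩ := Finset.mem_image.1 hcon
    rcases Finset.mem_union.1 he with h1 | h1
    · rw [Finset.mem_sdiff] at h1
      have h2 := k1.rbw e h1.1 h (hQN1 hR.mem) hev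
      apply h1.2
      rw [h2]
      exact hR.mem
    · apply hR.colQ e h1
      rw [hev]
      exact mem_cols hR.mem
  · intro e he heX
    rw [Finset.mem_union, Finset.mem_sdiff]
    exact Or.inl ⟨k6 e he (Finset.mem_union_left _ heX), fun hcon => hQX e hcon heX⟩
  · intro a ha hcon
    obtain ⟨e, he, hea⟩ := Finset.mem_image.1 hcon
    rcases Finset.mem_union.1 he with h1 | h1
    · rw [Finset.mem_sdiff] at h1
      apply k7 a (Finset.mem_union_left _ ha)
      rw [← hea]
      exact mem_cols h1.1
    · exfalso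
      apply hR.colF e h1
      rw [hea, Finset.mem_union, Finset.mem_union]
      exact Or.inl (Or.inl ha)
  · have h1 : M \ ((N₁ \ Q) ∪ Q') ⊆ (M \ N₁) ∪ Q := by
      intro e he
      rw [Finset.mem_sdiff, Finset.mem_union, Finset.mem_sdiff] at he
      rw [Finset.mem_union, Finset.mem_sdiff]
      by_cases heQ : e ∈ Q
      · exact Or.inr heQ
      · refine Or.inl ⟨he.1, fun hcon => he.2 (Or.inl ⟨hcon, heQ⟩)⟩
    have h2 := Finset.card_le_card h1
    have h3 := Finset.card_union_le (M \ N₁) Q
    omega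

/-- Claim B: several edges -/
theorem claimB (hSWP : SpecSWP) (c : R → C → α) (M : Finset (R × C)) (K s : ℕ)
    (ih : Stat c M K s) (j : ℕ) : ∀ (N X H : Finset (R × C)) (F : Finset α)
    (p q t : ℕ), RM c N → N.card = M.card → H ⊆ N → H ⊆ M → Disjoint H (lev c M K (s + 1)) →
    Disjoint H X → H.card = j → X.card ≤ p → F.card ≤ q → (M \ N).card ≤ t →
    p + q + t + j * (1 + T (s + 1)) + W (s + 1) ≤ K + (1 + T (s + 1)) →
    Concl c M N X H F (t + j * T (s + 1)) := by
  induction j with
  | zero =>
    intro N X H F p q t hN hNM _ _ _ _ hj _ _ ht _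
    have hH : H = ∅ := Finset.card_eq_zero.1 hj
    subst hH
    refine ⟨N, hN, hNM, rfl, rfl, ?_, fun e he _ => he, fun a _ h => h, by omega⟩
    intro h hh
    exact absurd hh (Finset.notMem_empty h)
  | succ j ihj =>
    intro N X H F p q t hN hNM hHN hHM hlev hHX hj hX hF ht hK
    have hne : H.Nonempty := by
      rw [← Finset.card_pos]
      omega
    obtain ⟨h, hh⟩ := hne
    have hK' : p + q + t + j * (1 + T (s + 1)) + W (s + 1) ≤ K := by
      rw [Nat.add_mul, Nat.one_mul] at hK
      omega
    have hjj : j ≤ j * (1 + T (s + 1)) := Nat.le_mul_of_pos_right j (by omega)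
    have hcard : (H.erase h).card = j := by
      rw [Finset.card_erase_of_mem hh]
      omega
    obtain ⟨N₁, k1, k2, k3, k4, k5, k6, k7, k8⟩ := claimA hSWP c M K s ih N (X ∪ H.erase h) F h (p + j) q t
      hN hNM (hHN hh) (hHM hh) (fun hcon => Finset.disjoint_left.1 hlev hh hcon) (by
        rw [Finset.mem_union]
        rintro (hcon | hcon)
        · exact Finset.disjoint_left.1 hHX hh hcon
        · exact Finset.notMem_erase h H hcon) (by
        have h1 := Finset.card_union_le X (H.erase h)
        omega) hF ht (by omega)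
    obtain ⟨N₂, l1, l2, l3, l4, l5, l6, l7, l8⟩ := ihj N₁ X (H.erase h) (insert (col c h) F) p (q + 1)
      (t + T (s + 1)) k1 k2
      (fun e he => k6 e (hHN (Finset.mem_of_mem_erase he)) (Finset.mem_union_right _ he))
      (fun e he => hHM (Finset.mem_of_mem_erase he))
      (Finset.disjoint_of_subset_left (Finset.erase_subset _ _) hlev)
      (Finset.disjoint_of_subset_left (Finset.erase_subset _ _) hHX)
      hcard hX (by
        have h1 := Finset.card_insert_le (col c h) F
        omega) k8 (by
        omega)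
    refine ⟨N₂, l1, l2, l3.trans k3, l4.trans k4, ?_, ?_, ?_, ?_⟩
    · intro e he hcon
      by_cases heh : e = h
      · subst heh
        exact k5 e (Finset.mem_singleton_self e) (l7 _ (Finset.mem_insert_self _ _) hcon)
      · exact l5 e (Finset.mem_erase.2 ⟨heh, he⟩) hcon
    · intro e he heX
      exact l6 e (k6 e he (Finset.mem_union_left _ heX)) heX
    · intro a ha hcon
      exact k7 a ha (l7 a (Finset.mem_insert_of_mem ha) hcon)
    · have h1 : (j + 1) * T (s + 1) = j * T (s + 1) + T (s + 1) := by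
        rw [Nat.add_mul, Nat.one_mul]
      rw [h1]
      omega

theorem stat (hSWP : SpecSWP) (c : R → C → α) (M : Finset (R × C)) (K : ℕ) (s : ℕ) :
    Stat c M K s := by
  induction s with
  | zero =>
    intro N X H F p q t hN hNM _ hHM hlev _ _ _ _ ht _
    have hH : H = ∅ := by
      rw [Finset.eq_empty_iff_forall_notMem]
      intro h hh
      exact Finset.disjoint_left.1 hlev hh (hHM hh)
    subst hH
    refine ⟨N, hN, hNM, rfl, rfl, ?_, fun e he _ => he, fun a _ h => h, by omega⟩
    intro h hh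
    exact absurd hh (Finset.notMem_empty h)
  | succ s ih =>
    intro N X H F p q t hN hNM hHN hHM hlev hHX hH3 hX hF ht hK
    have h1 : H.card * (1 + T (s + 1)) ≤ 3 * (1 + T (s + 1)) := Nat.mul_le_mul_right _ hH3
    have h2 : H.card * T (s + 1) ≤ 3 * T (s + 1) := Nat.mul_le_mul_right _ hH3
    obtain ⟨N', k1, k2, k3, k4, k5, k6, k7, k8⟩ := claimB hSWP c M K s ih H.card N X H F p q t hN hNM hHN hHM
      hlev hHX rfl hX hF ht (by omega)
    exact ⟨N', k1, k2, k3, k4, k5, k6, k7, by omega⟩

end RECM

open RECM in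
theorem specREC (hSWP : SpecSWP) : SpecREC := by
  intro R C α _ _ _ c M K _ s N X H F p q t hN hNM hHN hHM hlev hHX hH3 hX hF ht hK
  exact stat hSWP c M K s N X H F p q t hN hNM hHN hHM hlev hHX hH3 hX hF ht hK

end Pool.Agent.Lib.MPb3207d.HM
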