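import Pool.Agent.Lib.MP_b3207d_co.HM.Spec

/-!
# RLM (MP_b3207d_co): the free block of a maximum rainbow matching
-/

set_option autoImplicit false

namespace Pool.Agent.Lib.MPb3207d.HM

open Finset

theorem specRLM : SpecRLM := by
  intro R C α _ _ _ _ _ c M hc hM hmax hlt
  classical
  have h1 : (rows M).card ≤ M.card := Finset.card_image_le
  have h2 : (clms M).card ≤ M.card := Finset.card_image_le
  have h3 : (cols c M).card ≤ M.card := Finset.card_image_le
  obtain ⟨x, hx⟩ : ∃ x, x ∉ rows M := by
    by_contra hcon
    push Not at hcon
    have : (Finset.univ : Finset R).card ≤ (rows M).card :=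
      Finset.card_le_card (fun x _ => hcon x)
    rw [Finset.card_univ] at this
    omega
  have hx' : ∀ e ∈ M, e.1 ≠ x := by
    intro e he h
    exact hx (Finset.mem_image.mpr ⟨e, he, h⟩)
  have hfree : ∀ y, y ∉ clms M → c x y ∈ cols c M := by
    intro y hy
    have hy' : ∀ e ∈ M, e.2 ≠ y := by
      intro e he h
      exact hy (Finset.mem_image.mpr ⟨e, he, h⟩)
    by_contra hcol
    have hcol' : ∀ e ∈ M, col c e ≠ c x y := by
      intro e he h
      exact hcol (Finset.mem_image.mpr ⟨e, he, h⟩)
    have hrm : RM c (insert (x, y) M) := by
      refine ⟨?_, ?_, ?_⟩
      · intro e he f hf h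
        rcases Finset.mem_insert.mp he with rfl | he
        · rcases Finset.mem_insert.mp hf with rfl | hf
          · rfl
          · exact absurd h.symm (hx' f hf)
        · rcases Finset.mem_insert.mp hf with rfl | hf
          · exact absurd h (hx' e he)
          · exact hM.row e he f hf h
      · intro e he f hf h
        rcases Finset.mem_insert.mp he with rfl | he
        · rcases Finset.mem_insert.mp hf with rfl | hf
          · rfl
          · exact absurd h.symm (hy' f hf)
        · rcases Finset.mem_insert.mp hf with rfl | hf
          · exact absurd h (hy' e he)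
          · exact hM.clm e he f hf h
      · intro e he f hf h
        rcases Finset.mem_insert.mp he with rfl | he
        · rcases Finset.mem_insert.mp hf with rfl | hf
          · rfl
          · exact absurd h.symm (hcol' f hf)
        · rcases Finset.mem_insert.mp hf with rfl | hf
          · exact absurd h (hcol' e he)
          · exact hM.rbw e he f hf h
    have hnot : (x, y) ∉ M := fun h => hx' _ h rfl
    have := hmax _ hrm
    rw [Finset.card_insert_of_notMem hnot] at this
    omega
  have h4 : (Finset.univ \ clms M).card ≤ (cols c M).card := by
    refine Finset.card_le_card_of_injOn (fun y => c x y) ?_ ?_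
    · intro y hy
      have hy2 : y ∉ clms M := by
        simpa using hy
      exact Finset.mem_coe.mpr (hfree y hy2)
    · intro y _ y' _ h
      exact hc.row x y y' h
  have h5 : Fintype.card C ≤ (Finset.univ \ clms M).card + (clms M).card := by
    rw [Finset.card_sdiff_add_card_eq_card (Finset.subset_univ _), Finset.card_univ]
  omega

end Pool.Agent.Lib.MPb3207d.HM
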