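import Pool.Agent.Lib.MP_b3207d_co.HM.Spec

/-!
# Module STP: arithmetic
-/

set_option autoImplicit false

namespace Pool.Agent.Lib.MPb3207d.HM

theorem specSTP : SpecSTP := by
  constructor
  · intro a m N β β' μ D E hma hβ hμ hN hβ'
    obtain ⟨k, rfl⟩ : ∃ k, a = m + 1 + k := ⟨a - (m + 1), by omega⟩
    have e : m + 1 + k - m - 1 = k := by omega
    rw [e] at hN
    have h1 : β * (2 * μ + D) ≤ β * (m + 1 + k) := Nat.mul_le_mul_left β hμ
    have h2 : β * k ≤ m * k := Nat.mul_le_mul_right k hβ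
    have h3 : β * (2 * μ + D) = 2 * (β * μ) + β * D := by ring
    have h4 : β * (m + 1 + k) = β * m + β + β * k := by ring
    have h5 : β * (D + 1) = β * D + β := by ring
    rw [h3, h4] at h1
    rw [h5]
    omega
  · intro a m N β μ D hm hma hβ hμ hD hN hsq
    obtain ⟨k, rfl⟩ : ∃ k, a = m + 1 + k := ⟨a - (m + 1), by omega⟩
    have e : m + 1 + k - m - 1 = k := by omega
    rw [e] at hN
    obtain ⟨d, hd⟩ : ∃ d, d = m - β := ⟨_, rfl⟩
    rw [← hd] at hsq
    have hmd : m ≤ 2 * d := by omega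
    have h1 : m * m ≤ 4 * (d ^ 2) := by
      calc m * m ≤ (2 * d) * (2 * d) := Nat.mul_le_mul hmd hmd
        _ = 4 * (d ^ 2) := by ring
    obtain ⟨h, hh⟩ : ∃ h, h = (m + 1) / 2 := ⟨_, rfl⟩
    rw [← hh] at hN
    have hh2 : 2 * h ≤ m + 1 := by omega
    have h2 : 2 * h * (2 * μ) ≤ (m + 1) * (2 * μ) := Nat.mul_le_mul_right _ hh2
    have h3 : (m + 1) * (2 * μ + D) ≤ (m + 1) * (m + 1 + k) := Nat.mul_le_mul_left _ hμ
    have h4 : (m + 1) * 27 ≤ (m + 1) * D := Nat.mul_le_mul_left _ hD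
    have h5 : k ≤ m * k := Nat.le_mul_of_pos_left k hm
    have e1 : 2 * h * (2 * μ) = 4 * (h * μ) := by ring
    have e2 : (m + 1) * (2 * μ + D) = (m + 1) * (2 * μ) + (m + 1) * D := by ring
    have e3 : (m + 1) * (m + 1 + k) = m * m + 2 * m + 1 + m * k + k := by ring
    rw [e1] at h2
    rw [e2, e3] at h3
    omega

end Pool.Agent.Lib.MPb3207d.HM
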