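import Pool.Agent.Lib.MP_b3207d_co.HM.Spec

/-!
# HM, module SWP: exchange of a part of a rainbow matching
-/

set_option autoImplicit false

namespace Pool.Agent.Lib.MPb3207d.HM

theorem specSWP : SpecSWP := by
  intro R C α _ _ _ c N Q Q' hN hQN hQ' h
  have key : ∀ e ∈ (N \ Q) ∪ Q', ∀ f ∈ (N \ Q) ∪ Q',
      (e.1 = f.1 → e = f) ∧ (e.2 = f.2 → e = f) ∧ (col c e = col c f → e = f) := by
    intro e he f hf
    rw [Finset.mem_union, Finset.mem_sdiff] at he hf
    rcases he with ⟨he1, he2⟩ | he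
    · rcases hf with ⟨hf1, hf2⟩ | hf
      · exact ⟨hN.row e he1 f hf1, hN.clm e he1 f hf1, hN.rbw e he1 f hf1⟩
      · obtain ⟨h1, h2, h3⟩ := h f hf e he1 he2
        exact ⟨fun h0 => absurd h0.symm h1, fun h0 => absurd h0.symm h2,
          fun h0 => absurd h0.symm h3⟩
    · rcases hf with ⟨hf1, hf2⟩ | hf
      · obtain ⟨h1, h2, h3⟩ := h e he f hf1 hf2
        exact ⟨fun h0 => absurd h0 h1, fun h0 => absurd h0 h2, fun h0 => absurd h0 h3⟩
      · exact ⟨hQ'.row e he f hf, hQ'.clm e he f hf, hQ'.rbw e he f hf⟩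
  refine ⟨⟨fun e he f hf => (key e he f hf).1, fun e he f hf => (key e he f hf).2.1,
    fun e he f hf => (key e he f hf).2.2⟩, ?_⟩
  have hdis : Disjoint (N \ Q) Q' := by
    rw [Finset.disjoint_left]
    intro e he he'
    rw [Finset.mem_sdiff] at he
    exact (h e he' e he.1 he.2).1 rfl
  rw [Finset.card_union_of_disjoint hdis, Finset.card_sdiff_of_subset hQN]
  have := Finset.card_le_card hQN
  omega

end Pool.Agent.Lib.MPb3207d.HM
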