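import Mathlib

/-!
# Rainbow matchings when no colour is frequent: definitions and statements (MP_b3207d_co)

THEOREM (FIN). `R`, `C` finite, `a = |R| ≤ |C|`, `c : R → C → α` a proper colouring of the complete
bipartite graph, `μ, S` natural numbers, `S ≥ 1`. If every set `T` of colours with
`a/4 ≤ |T| ≤ a` covers at most `|T| μ` cells (for example if no colour occurs more than `μ` times) and
`2 μ + a / 2^(2^S) + 6 √a + 170 * 3^S ≤ a`, then there is a rainbow matching of size `a`.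

IDEA. `M` a maximum rainbow matching, `m = |M| < a`. For `B ⊆ M` there is an arc `v → w` (`v ≠ w` in `M`)
if the colour of the cell (row of `v`, column of `w`) is not a colour of an edge of `B`. An edge `v` is
robust over `B` if, whatever few edges and colours are forbidden, there is a directed 2-cycle or
3-cycle through `v` whose cells have distinct allowed colours. `B 0 = M`, `B (s+1)` = the edges not
robust over `B s`. The colour of an edge outside `B s` can be freed by a bounded number of changes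
of `M` (REC), so the colours of the edges outside `B s` can be used in augmentations (AUG). A vertex
which is not robust is in few directed triangles; counting (CNT, BAD, LOW) gives
`|B (s+1)| m - |B (s+1)|^2 / 2 - error ≤ #non-arcs ≤ |B s| (μ - 1)`, so if `μ < m / 2` the sizes of the `B s`
decrease to `m / 2` in `S` steps (ITR), and then there is an augmentation (FST).
-/

set_option autoImplicit false

namespace Pool.Agent.Lib.MPb3207d.HM

variable {R C α : Type} [DecidableEq R] [DecidableEq C] [DecidableEq α]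

/-- a proper colouring of the complete bipartite graph `R × C` -/
structure Proper (c : R → C → α) : Prop where
  row : ∀ x y y', c x y = c x y' → y = y'
  clm : ∀ x x' y, c x y = c x' y → x = x'

/-- the colour of an edge -/
def col (c : R → C → α) (e : R × C) : α := c e.1 e.2

/-- the colours of the edges of `N` -/
def cols (c : R → C → α) (N : Finset (R × C)) : Finset α := N.image (col c)

/-- the rows met by `N` -/
def rows (N : Finset (R × C)) : Finset R := N.image Prod.fst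

/-- the columns met by `N` -/
def clms (N : Finset (R × C)) : Finset C := N.image Prod.snd

/-- `N` is a rainbow matching -/
structure RM (c : R → C → α) (N : Finset (R × C)) : Prop where
  row : ∀ e ∈ N, ∀ f ∈ N, e.1 = f.1 → e = f
  clm : ∀ e ∈ N, ∀ f ∈ N, e.2 = f.2 → e = f
  rbw : ∀ e ∈ N, ∀ f ∈ N, col c e = col c f → e = f

/-- `Q'` is a replacement for the set `Q ∋ v` of at most three edges of `M`, it avoids the edges in
`X`, the colours in `F`, the colours of `B` and the colours of `Q` -/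
structure Rep (c : R → C → α) (M B : Finset (R × C)) (v : R × C) (X : Finset (R × C))
    (F : Finset α) (Q Q' : Finset (R × C)) : Prop where
  mem : v ∈ Q
  sub : Q ⊆ M
  card : Q.card ≤ 3
  avoid : ∀ w ∈ Q, w ≠ v → w ∉ X
  rows : rows Q' = rows Q
  clms : clms Q' = clms Q
  rm : RM c Q'
  colB : ∀ e ∈ Q', col c e ∉ cols c B
  colF : ∀ e ∈ Q', col c e ∉ F
  colQ : ∀ e ∈ Q', col c e ∉ cols c Q

/-- `v` is robust over `B` -/
def Rob (c : R → C → α) (M B : Finset (R × C)) (K : ℕ) (v : R × C) : Prop :=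
  ∀ (X : Finset (R × C)) (F : Finset α), X.card ≤ K → F.card ≤ K →
    ∃ Q Q', Rep c M B v X F Q Q'

open Classical in
/-- the levels: `lev 0 = M`, `lev (s+1)` = the edges of `M` not robust over `lev s` -/
noncomputable def lev (c : R → C → α) (M : Finset (R × C)) (K : ℕ) : ℕ → Finset (R × C)
  | 0 => M
  | s + 1 => M.filter fun v => ¬ Rob c M (lev c M K s) K v

/-- number of changed edges when the colour of one edge outside `lev s` is freed -/
def T : ℕ → ℕ
  | 0 => 0
  | s + 1 => 3 * T s + 3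

/-- growth of the contexts -/
def W : ℕ → ℕ
  | 0 => 0
  | s + 1 => W s + 8 + 2 * T s

/-- the non-arcs: pairs of different edges `v, w` of `M` such that the cell (row of `v`, column of `w`)
has a colour of `B` -/
def non (c : R → C → α) (M B : Finset (R × C)) : Finset ((R × C) × (R × C)) :=
  (M ×ˢ M).filter fun p => p.1 ≠ p.2 ∧ c p.1.1 p.2.2 ∈ cols c B

/-- the cells with a colour in `A` -/
def cells [Fintype R] [Fintype C] (c : R → C → α) (A : Finset α) : Finset (R × C) :=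
  Finset.univ.filter fun e => col c e ∈ A

/-- SWP: exchange of `Q ⊆ N` for `Q'`.

PROOF. Immediate: two elements of `(N \ Q) ∪ Q'` are both in `N`, both in `Q'` or one in each. The
cardinality: `N \ Q` and `Q'` are disjoint (an element of both would contradict `h` by
`e.1 ≠ e.1`). -/
def SpecSWP : Prop :=
  ∀ {R C α : Type} [DecidableEq R] [DecidableEq C] [DecidableEq α] (c : R → C → α)
    (N Q Q' : Finset (R × C)), RM c N → Q ⊆ N → RM c Q' →
    (∀ e ∈ Q', ∀ f ∈ N, f ∉ Q → e.1 ≠ f.1 ∧ e.2 ≠ f.2 ∧ col c e ≠ col c f) →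
    RM c ((N \ Q) ∪ Q') ∧ ((N \ Q) ∪ Q').card + Q.card = N.card + Q'.card

/-- REC: the colours of at most three edges `H` of `N` outside `lev s` can be freed (from SWP).

PROOF. Induction over `s`. `s = 0`: `H = ∅` (`H ⊆ M = lev 0`), `N' = N`.
Claim A (one edge `v`, level `s + 1`): let `v ∈ N ∩ M`, `v ∉ lev (s+1)`, `v ∉ X`, `|X| ≤ p`, `|F| ≤ q`,
`|M \ N| ≤ t`, `p + q + t + W (s+1) ≤ K`; then there is `N'` as in the statement with `H = {v}` and
`|M \ N'| ≤ t + T (s+1)`. Proof: `v` is robust over `lev s`. Take the forbidden edges `X ∪ (M \ N)` (at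
most `p + t ≤ K`) and the forbidden colours `F ∪ cols (N \ M) ∪ cols X` (at most `q + t + p ≤ K`;
`|N \ M| = |M \ N|` since `|N| = |M|`). Get `Q`, `Q'`: `Q ⊆ M ∩ N`, `Q ∩ X = ∅`, `|Q'| = |Q| ≤ 3` (both are
injective on rows). Let `H = {h ∈ N ∩ M | col h ∈ cols Q'}`, `|H| ≤ |cols Q'| ≤ 3`. `H` is disjoint from `Q`
(`colQ`), from `X` (`cols X` is forbidden), from `lev s` (`colB`). By the induction hypothesis (level
`s`) for `N`, `H`, `X ∪ Q`, `F ∪ cols Q'` (`p + 3`, `q + 3`, `t`: `(p+3) + (q+3) + t + 2 + 2 T s + W s =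
p + q + t + W (s+1) ≤ K`) there is `N₁` with the same rows and columns, `N₁ ⊇ N ∩ (X ∪ Q)`,
`cols N₁ ∩ cols H = ∅` and no new colours of `F ∪ cols Q'`. So `cols N₁ ∩ cols Q' = ∅`: such a colour would
be a colour of `N` (no new colours), not of `N \ M`, so of `H`. Exchange `Q` for `Q'` in `N₁` (SWP; rows and
columns of `Q'` are those of `Q ⊆ N₁`): `N' = (N₁ \ Q) ∪ Q'`. The colour of `v ∈ Q` is not in `cols Q'`
(`colQ`) and not in `cols (N₁ \ Q)` (rainbow). `|M \ N'| ≤ |M \ N₁| + |Q| ≤ t + 3 T s + 3`.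
Claim B (the statement for level `s + 1`) from Claim A by induction over `|H| = j + 1`, with the
condition `p + q + t + j (1 + T (s+1)) + W (s+1) ≤ K`: `H = {h} ∪ H'`; free `h` with the protected edges
`X ∪ H'` (`p + j`), then `H'` with the protected `X` and the forbidden colours `F ∪ {col h}` (`q + 1`) and
`t + T (s+1)`. (`H' ⊆ N₁` since it was protected; the colour of `h` is not reintroduced since it is
forbidden and not in `cols N₁`.) -/
def SpecREC : Prop :=
  ∀ {R C α : Type} [DecidableEq R] [DecidableEq C] [DecidableEq α] (c : R → C → α)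
    (M : Finset (R × C)) (K : ℕ), RM c M → ∀ (s : ℕ) (N X H : Finset (R × C)) (F : Finset α)
    (p q t : ℕ), RM c N → N.card = M.card → H ⊆ N → H ⊆ M → Disjoint H (lev c M K s) →
    Disjoint H X → H.card ≤ 3 → X.card ≤ p → F.card ≤ q → (M \ N).card ≤ t →
    p + q + t + 2 + 2 * T s + W s ≤ K →
    ∃ N' : Finset (R × C), RM c N' ∧ N'.card = M.card ∧ rows N' = rows N ∧ clms N' = clms N ∧
      (∀ h ∈ H, col c h ∉ cols c N') ∧ (∀ e ∈ N, e ∈ X → e ∈ N') ∧
      (∀ a ∈ F, a ∈ cols c N' → a ∈ cols c N) ∧ (M \ N').card ≤ t + 3 * T s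

/-- `M` is a maximum rainbow matching and `W (s+1) ≤ K`: there is no augmentation by cells whose colours
are not in `cols (lev s)` (from SWP, REC).

PROOF. Suppose `Q`, `Q'` are given. `H = {h ∈ M | col h ∈ cols Q'}`: `|H| ≤ |Q'| ≤ 3`, disjoint from
`lev s` (`colB`) and from `Q` (`colQ`). REC with `N = M`, `X = Q` (`p = 2`), `F = cols Q'` (`q = 3`), `t = 0`:
`N'` has the rows and columns of `M`, contains `Q`, has no colour of `H` and so no colour of `Q'`
(such a colour would be a colour of `M`, so of `H`). SWP for `N'`, `Q`, `Q'`: a rainbow matching with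
`m + 1` edges (for `e ∈ Q'`, `f ∈ N' \ Q`: `e.1` is a row of `Q ⊆ N'` (then `f ∈ Q` by `RM.row`) or not a row
of `M`, so not a row of `N'`). -/
def SpecAUG : Prop :=
  ∀ {R C α : Type} [DecidableEq R] [DecidableEq C] [DecidableEq α] (c : R → C → α)
    (M : Finset (R × C)) (K s : ℕ), RM c M → (∀ N, RM c N → N.card ≤ M.card) → W (s + 1) ≤ K →
    ∀ Q Q' : Finset (R × C), Q ⊆ M → Q.card ≤ 2 → RM c Q' → Q'.card = Q.card + 1 →
      (∀ e ∈ Q', e.1 ∈ rows Q ∨ e.1 ∉ rows M) → (∀ e ∈ Q', e.2 ∈ clms Q ∨ e.2 ∉ clms M) →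
      (∀ e ∈ Q', col c e ∉ cols c (lev c M K s)) → (∀ e ∈ Q', col c e ∉ cols c Q) → False

/-- ATH: the augmentations with one, two and three new cells (from AUG).

PROOF. `one`: `Q = ∅`, `Q' = {(x, y)}`. `two`: `Q = {v}`, `Q' = {(x, v.2), (v.1, y)}`, if the colours are
different (the colours are not `col v` because `Proper`: same column, same row). `three`:
`Q = {w, u}`, `Q' = {(x, w.2), (w.1, u.2), (u.1, y)}`. (`x ≠ w.1` etc. since `x` is not in `rows M`.) -/
structure SpecATH : Prop where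
  one : ∀ {R C α : Type} [DecidableEq R] [DecidableEq C] [DecidableEq α] (c : R → C → α)
    (M : Finset (R × C)) (K s : ℕ), Proper c → RM c M → (∀ N, RM c N → N.card ≤ M.card) →
    W (s + 1) ≤ K → ∀ x y, x ∉ rows M → y ∉ clms M → c x y ∈ cols c (lev c M K s)
  two : ∀ {R C α : Type} [DecidableEq R] [DecidableEq C] [DecidableEq α] (c : R → C → α)
    (M : Finset (R × C)) (K s : ℕ), Proper c → RM c M → (∀ N, RM c N → N.card ≤ M.card) →
    W (s + 1) ≤ K → ∀ x y, x ∉ rows M → y ∉ clms M → ∀ v ∈ M,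
      c x v.2 ∉ cols c (lev c M K s) → c v.1 y ∉ cols c (lev c M K s) → c x v.2 = c v.1 y
  three : ∀ {R C α : Type} [DecidableEq R] [DecidableEq C] [DecidableEq α] (c : R → C → α)
    (M : Finset (R × C)) (K s : ℕ), Proper c → RM c M → (∀ N, RM c N → N.card ≤ M.card) →
    W (s + 1) ≤ K → ∀ x y, x ∉ rows M → y ∉ clms M → ∀ w ∈ M, ∀ u ∈ M, w ≠ u →
      c x w.2 ∉ cols c (lev c M K s) → c w.1 u.2 ∉ cols c (lev c M K s) →
      c u.1 y ∉ cols c (lev c M K s) →
      c x w.2 = c w.1 u.2 ∨ c w.1 u.2 = c u.1 y ∨ c x w.2 = c u.1 y ∨ c x w.2 = col c u ∨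
        c u.1 y = col c w

/-- UPP: upper bound for the number of non-arcs (from ATH).

PROOF. Let `m = |M|`, `r = |R| - m ≥ 1`, `r₂ = |C| - m ≥ r`, `A = cols (lev s)`. The following cells have
colours in `A` and are different: the cells of `lev s` themselves (`|lev s|` of them, `lev s ⊆ M`); the
cells `(v.1, w.2)` for `(v, w) ∈ non c M (lev s)` (injective since `M` is a matching; not in `M`); and for
every `v ∈ M` at least `r - 1` cells of the form `(x, v.2)`, `x ∉ rows M`, or `(v.1, y)`, `y ∉ clms M`: let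
`f` be the number of `x ∉ rows M` with `c x v.2 ∉ A` and `g` the number of `y ∉ clms M` with
`c v.1 y ∉ A`. If `f = 0` there are `r` cells of the first kind, if `g = 0` there are `r₂ ≥ r` of the second
kind. Otherwise by `two` all the colours `c x v.2 = c v.1 y` are equal, so `f = g = 1` by `Proper`, and
there are `(r - 1) + (r₂ - 1) ≥ r - 1` cells. -/
def SpecUPP : Prop :=
  ∀ {R C α : Type} [DecidableEq R] [DecidableEq C] [DecidableEq α] [Fintype R] [Fintype C]
    (c : R → C → α) (M : Finset (R × C)) (K s : ℕ), Proper c → RM c M →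
    (∀ N, RM c N → N.card ≤ M.card) → W (s + 1) ≤ K → M.card < Fintype.card R →
    Fintype.card R ≤ Fintype.card C →
    (non c M (lev c M K s)).card + (lev c M K s).card + M.card * (Fintype.card R - M.card - 1) ≤
      (cells c (cols c (lev c M K s))).card

/-- RLM: the free block.

PROOF. Every cell `(x, y)` with `x ∉ rows M`, `y ∉ clms M` has a colour of `M` (otherwise `M ∪ {(x, y)}` is
a larger rainbow matching: `ATH.one` with `s = 0`, `K = W 1`, or directly). Fix one `x ∉ rows M`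
(`|rows M| = m < |R|`): the `|C| - m` cells `(x, y)` have different colours in `cols M`, so
`|C| - m ≤ m`. -/
def SpecRLM : Prop :=
  ∀ {R C α : Type} [DecidableEq R] [DecidableEq C] [DecidableEq α] [Fintype R] [Fintype C]
    (c : R → C → α) (M : Finset (R × C)), Proper c → RM c M →
    (∀ N, RM c N → N.card ≤ M.card) → M.card < Fintype.card R →
    Fintype.card C ≤ 2 * M.card

/-- CYC: directed 2-cycles and 3-cycles give replacements.

PROOF. `two`: `Q = {v, w}`, `Q' = {(v.1, w.2), (w.1, v.2)}` (`v.1 ≠ w.1`, `v.2 ≠ w.2` since `M` is a matching;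
the colours are not `col v`, `col w` by `Proper`). `three`: `Q = {v, w, u}`,
`Q' = {(v.1, w.2), (w.1, u.2), (u.1, v.2)}`. -/
structure SpecCYC : Prop where
  two : ∀ {R C α : Type} [DecidableEq R] [DecidableEq C] [DecidableEq α] (c : R → C → α)
    (M B X : Finset (R × C)) (F : Finset α), Proper c → RM c M → ∀ v ∈ M, ∀ w ∈ M, w ≠ v →
    w ∉ X → c v.1 w.2 ∉ cols c B → c w.1 v.2 ∉ cols c B → c v.1 w.2 ∉ F → c w.1 v.2 ∉ F →
    c v.1 w.2 ≠ c w.1 v.2 → ∃ Q Q', Rep c M B v X F Q Q'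
  three : ∀ {R C α : Type} [DecidableEq R] [DecidableEq C] [DecidableEq α] (c : R → C → α)
    (M B X : Finset (R × C)) (F : Finset α), Proper c → RM c M → ∀ v ∈ M, ∀ w ∈ M, ∀ u ∈ M,
    w ≠ v → u ≠ v → w ≠ u → w ∉ X → u ∉ X →
    c v.1 w.2 ∉ cols c B → c w.1 u.2 ∉ cols c B → c u.1 v.2 ∉ cols c B →
    c v.1 w.2 ∉ F → c w.1 u.2 ∉ F → c u.1 v.2 ∉ F →
    c v.1 w.2 ≠ c w.1 u.2 → c w.1 u.2 ≠ c u.1 v.2 → c v.1 w.2 ≠ c u.1 v.2 →
    c v.1 w.2 ≠ col c u → c w.1 u.2 ≠ col c v → c u.1 v.2 ≠ col c w →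
    ∃ Q Q', Rep c M B v X F Q Q'

/-- the 2-cycle partners of `v` in `S`: `v → w → v` -/
def par (c : R → C → α) (B S : Finset (R × C)) (v : R × C) : Finset (R × C) :=
  S.filter fun w => w ≠ v ∧ c v.1 w.2 ∉ cols c B ∧ c w.1 v.2 ∉ cols c B

/-- the vertices `z` of `S` on a directed triangle with `v` and `w`: `w → z → v` or `v → z → w` -/
def tri (c : R → C → α) (B S : Finset (R × C)) (v w : R × C) : Finset (R × C) :=
  S.filter fun z => z ≠ v ∧ z ≠ w ∧
    ((c w.1 z.2 ∉ cols c B ∧ c z.1 v.2 ∉ cols c B) ∨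
      (c v.1 z.2 ∉ cols c B ∧ c z.1 w.2 ∉ cols c B))

/-- BAD: a vertex which is not robust has few partners or a partner in few triangles (from CYC).

PROOF. Take `X`, `F` from `¬ Rob`. Suppose `par` has more than `E` elements. Let `P'` be the set of the
`w ∈ par` with `w ∉ X`, `c v.1 w.2 ∉ F`, `c w.1 v.2 ∉ F`: at most `3 K` are lost (the maps `w ↦ c v.1 w.2`,
`w ↦ c w.1 v.2` are injective on `M`), `|P'| ≥ E + 1 - 3 K`. For `w ∈ P'` we have (*)
`c v.1 w.2 = c w.1 v.2` by `CYC.two`. For `z ∈ tri v w`, first kind (`v → w → z → v`), `CYC.three` with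
`u = z` fails in one of its hypotheses: `z ∈ X`; `c w.1 z.2 ∈ F`; `c z.1 v.2 ∈ F`; `c v.1 w.2 = c w.1 z.2`
(impossible: by (*) it is `c w.1 v.2 = c w.1 z.2`, `v.2 = z.2`); `c w.1 z.2 = c z.1 v.2` (call it `z ∈ U w`);
`c v.1 w.2 = c z.1 v.2` (impossible: `c w.1 v.2 = c z.1 v.2`); `c v.1 w.2 = col z`; `c w.1 z.2 = col v`;
`c z.1 v.2 = col w`. Second kind (`v → z → w → v`), `CYC.three` with `w := z`, `u := w`: `z ∈ X`;
`c v.1 z.2 ∈ F`; `c z.1 w.2 ∈ F`; `c v.1 z.2 = c z.1 w.2` (`z ∈ U' w`); `c z.1 w.2 = c w.1 v.2` (impossible: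
`= c v.1 w.2`); `c v.1 z.2 = c w.1 v.2` (impossible: `= c v.1 w.2`); `c v.1 z.2 = col w`;
`c z.1 w.2 = col v`; `c w.1 v.2 = col z` (as `c v.1 w.2 = col z`). For a fixed `w` each of the five
conditions `∈ X`, `∈ F` has at most `K` solutions `z ∈ M`, each of the five conditions with `col` at most
one (`Proper` and `RM`). So `|tri v w| ≤ 5 K + 5 + |U w| + |U' w|`. For a given `z` there is at most one
`w ∈ M` with `c w.1 z.2 = c z.1 v.2`, and at most one with `c v.1 z.2 = c z.1 w.2`, so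
`∑_{w ∈ P'} (|U w| + |U' w|) ≤ 2 |M|`. If `|tri v w| > E` for all `w ∈ P'` then, with
`q = E - 5 K - 5`, `|U w| + |U' w| ≥ q + 1`, so `2 |M| ≥ |P'| (q + 1) ≥ (q + 1)^2`: contradiction. -/
def SpecBAD : Prop :=
  ∀ {R C α : Type} [DecidableEq R] [DecidableEq C] [DecidableEq α] (c : R → C → α)
    (M B : Finset (R × C)) (K q E : ℕ), Proper c → RM c M → 2 * M.card < (q + 1) ^ 2 →
    5 * K + 5 + q ≤ E → ∀ v ∈ M, ¬ Rob c M B K v → ∀ S ⊆ M,
    (par c B S v).card ≤ E ∨ ∃ w ∈ par c B S v, (tri c B S v w).card ≤ E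

/-- CNT: counting of non-arcs in a digraph.

PROOF. Induction over `|S|`. Let `b = |S ∩ B|`, `σ = |S|`, `N(S)` the number of non-arcs in `S`. `b = 0`:
trivial. Otherwise let `v ∈ S ∩ B`. (i) At most `E` partners in `S`: every other `z ∈ S` which is not a
partner gives at least one non-arc `(v, z)` or `(z, v)`, so `N(S) ≥ N(S \ {v}) + (σ - 1 - E)`; by
induction `2 N(S) ≥ 2 (b-1)(σ-1) - (b-1)² - (4E+4)(b-1) + 2(σ-1) - 2E = 2bσ - b² - (4E+4) b + 2E + 3`.
(ii) a partner `w` with at most `E` elements `z` in triangles: every other `z ∈ S \ {v, w}` gives at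
least two non-arcs among `(v,z), (z,v), (w,z), (z,w)` (one of `w → z`, `z → v` and one of `v → z`, `z → w` is
missing), so `N(S) ≥ N(S \ {v,w}) + 2 (σ - 2 - E)`. If `w ∈ B`:
`2 N(S) ≥ 2 (b-2)(σ-2) - (b-2)² - (4E+4)(b-2) + 4(σ-2) - 4E = 2bσ - b² - (4E+4) b + 4E + 4`. If
`w ∉ B`: `b ≤ σ - 1` and `2 N(S) ≥ 2 (b-1)(σ-2) - (b-1)² - (4E+4)(b-1) + 4(σ-2) - 4E =
2bσ - b² - (4E+4) b + 2(σ-b) - 1`. -/
def SpecCNT : Prop :=
  ∀ {V : Type} [DecidableEq V] (A : V → V → Prop) [DecidableRel A] (M B : Finset V) (E : ℕ),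
    (∀ S ⊆ M, ∀ v ∈ S, v ∈ B →
      (S.filter fun w => w ≠ v ∧ A v w ∧ A w v).card ≤ E ∨
      ∃ w ∈ S, w ≠ v ∧ (S.filter fun z => z ≠ v ∧ z ≠ w ∧
        ((A w z ∧ A z v) ∨ (A v z ∧ A z w))).card ≤ E) →
    ∀ S ⊆ M, 2 * (S ∩ B).card * S.card ≤
      2 * ((S ×ˢ S).filter fun p => p.1 ≠ p.2 ∧ ¬ A p.1 p.2).card + (S ∩ B).card ^ 2 +
        (4 * E + 4) * (S ∩ B).card

/-- LOW: lower bound for the number of non-arcs (from BAD, CNT).

PROOF. CNT with `A v w := c v.1 w.2 ∉ cols c (lev s)`, `B := lev (s+1)`, `S := M`, hypothesis from BAD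
with `B := lev s` (`v ∈ lev (s+1)` is not robust over `lev s`). -/
def SpecLOW : Prop :=
  ∀ {R C α : Type} [DecidableEq R] [DecidableEq C] [DecidableEq α] (c : R → C → α)
    (M : Finset (R × C)) (K q E s : ℕ), Proper c → RM c M → 2 * M.card < (q + 1) ^ 2 →
    5 * K + 5 + q ≤ E →
    2 * (lev c M K (s + 1)).card * M.card ≤ 2 * (non c M (lev c M K s)).card +
      (lev c M K (s + 1)).card ^ 2 + (4 * E + 4) * (lev c M K (s + 1)).card

/-- MON: `lev (s+1) ⊆ lev s ⊆ M`.

PROOF. Induction. `lev (s+2) ⊆ lev (s+1)`: if `v ∈ M` is robust over `lev s` then it is robust over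
`lev (s+1) ⊆ lev s` (`colB` for fewer colours). -/
structure SpecMON : Prop where
  sub : ∀ {R C α : Type} [DecidableEq R] [DecidableEq C] [DecidableEq α] (c : R → C → α)
    (M : Finset (R × C)) (K s : ℕ), lev c M K s ⊆ M
  mono : ∀ {R C α : Type} [DecidableEq R] [DecidableEq C] [DecidableEq α] (c : R → C → α)
    (M : Finset (R × C)) (K s : ℕ), lev c M K (s + 1) ⊆ lev c M K s
  card : ∀ {R C α : Type} [DecidableEq R] [DecidableEq C] [DecidableEq α] (c : R → C → α)
    (M B : Finset (R × C)), RM c M → B ⊆ M → (cols c B).card = B.card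

/-- FST: the last step (from ATH, MON).

PROOF. Let `x ∉ rows M`, `y ∉ clms M`, `A = cols (lev s)`, `G = {w ∈ M | c x w.2 ∉ A}`,
`G' = {u ∈ M | c u.1 y ∉ A}`. `w ↦ c x w.2` is injective on `M`, so `|G| ≥ m - |A| ≥ m - |lev s|`,
similarly `G'`. Every `(w, u) ∈ G ×ˢ G'` is of one of the following kinds: `w = u` (at most `m`);
`(w, u) ∈ non c M (lev s)`; or, by `ATH.three`, one of `c x w.2 = c w.1 u.2` (for a given `w` at most one
`u ∈ M`), `c w.1 u.2 = c u.1 y` (for a given `u` at most one `w`), `c x w.2 = c u.1 y` (given `w`, one `u`),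
`c x w.2 = col u` (given `w`, one `u`), `c u.1 y = col w` (given `w`, one `u`): at most `m` pairs each. -/
def SpecFST : Prop :=
  ∀ {R C α : Type} [DecidableEq R] [DecidableEq C] [DecidableEq α] [Fintype R] [Fintype C]
    (c : R → C → α) (M : Finset (R × C)) (K s : ℕ), Proper c → RM c M →
    (∀ N, RM c N → N.card ≤ M.card) → W (s + 1) ≤ K → M.card < Fintype.card R →
    Fintype.card R ≤ Fintype.card C →
    (M.card - (lev c M K s).card) ^ 2 ≤ (non c M (lev c M K s)).card + 6 * M.card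

/-- ITR: the iteration.

PROOF. Suppose `m < 2 β s` for all `s ≤ S`. With `g = D + 1 - (4 E + 4) ≥ m / 2^(2^S) ≥ 0` the step
inequality and `β (s+1) ≤ β s` give `2 β(s+1) m - β(s+1)² + β(s) g ≤ β(s) m` (in the reals), so for
`y s = (m - β s) / m ∈ [0, 1/2)`: `(y (s+1))² ≥ y s + (β s / m) (g / m) ≥ y s`, and
`(y 1)² ≥ g / m ≥ 2^(-2^S)` (`y 0 = 0`, `β 0 = m`). By induction `(y s)^(2^s) ≥ 2^(-2^S)` for
`1 ≤ s ≤ S`, so `y S ≥ 1/2`: contradiction. -/
def SpecITR : Prop :=
  ∀ (m S E D : ℕ) (β : ℕ → ℕ), 1 ≤ m → 1 ≤ S → β 0 = m → (∀ s, β (s + 1) ≤ β s) →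
    (∀ s, s < S → m < 2 * β s → 2 * β (s + 1) * m + β s * (D + 1) ≤
      β (s + 1) ^ 2 + (4 * E + 4) * β (s + 1) + β s * m) →
    (4 * (E : ℝ) + 3) + (m : ℝ) / 2 ^ (2 ^ S) ≤ D → ∃ s, s ≤ S ∧ 2 * β s ≤ m

/-- WBD: `W (S + 1) ≤ 8 * 3^S`, and monotonicity of `W`.

PROOF. `2 T s + 3 = 3^(s+1)`. `W 2 = 22 ≤ 24`, `W 1 = 8`, and
`W (s+2) = W (s+1) + 8 + 2 T (s+1) = W (s+1) + 5 + 9 * 3^s ≤ 8 * 3^s + 5 + 9 * 3^s ≤ 24 * 3^s`. -/
structure SpecWBD : Prop where
  bd : ∀ S : ℕ, W (S + 1) ≤ 8 * 3 ^ S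
  mono : ∀ s t : ℕ, s ≤ t → W s ≤ W t

/-- STP: the step inequality and the contradiction at the end (arithmetic in `ℤ`).

PROOF. `a = m + r`, `r ≥ 1`. `step`: `N + β + m (r - 1) ≤ β μ`, `2 μ + D ≤ a`, `β ≤ m`, so
`2 N ≤ β (2 μ - 2) - 2 m (r - 1) ≤ β (2 μ - 2 r) ≤ β (m - r - D) ≤ β (m - 1 - D)`; with
`2 β' m ≤ 2 N + β'² + (4 E + 4) β'`. `last`: `N + β + m (r-1) ≤ ((m+1)/2) μ`,
`(m - β)² ≤ N + 6 m`, `2 β ≤ m`: `m² ≤ 4 (m - β)² ≤ 4 N + 24 m ≤ 2 (m+1) μ - 4 m (r-1) + 24 m ≤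
(m+1)(m + r - D) - 4 m (r-1) + 24 m`, and `(m+1) r - 4 m (r-1) ≤ m + 1` since the difference is
`(r-1)(1-3m) ≤ 0`; so `m² ≤ m² + m + (m + 1) - (m+1) D + 24 m`, `(m + 1) D ≤ 26 m + 1`. -/
structure SpecSTP : Prop where
  step : ∀ a m N β β' μ D E : ℕ, m < a → β ≤ m → 2 * μ + D ≤ a →
    N + β + m * (a - m - 1) ≤ β * μ → 2 * β' * m ≤ 2 * N + β' ^ 2 + (4 * E + 4) * β' →
    2 * β' * m + β * (D + 1) ≤ β' ^ 2 + (4 * E + 4) * β' + β * m
  last : ∀ a m N β μ D : ℕ, 1 ≤ m → m < a → 2 * β ≤ m → 2 * μ + D ≤ a → 27 ≤ D →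
    N + β + m * (a - m - 1) ≤ (m + 1) / 2 * μ → (m - β) ^ 2 ≤ N + 6 * m → False

/-- FIN (from all): the main theorem. helper52

PROOF. Let `M` be a maximum rainbow matching, `m = |M|`; suppose `m < a`. `K = 8 * 3^S`,
`q = Nat.sqrt (2 m)`, `E = 5 K + 5 + q`, `D = a - 2 μ`. RLM: `a ≤ 2 m`. For `s < S` with `m < 2 |lev s|`:
`a ≤ 4 |lev s|`, so `cells ≤ |lev s| μ`; UPP, LOW, STP.step: the hypothesis of ITR. So there is
`s ≤ S` with `2 |lev s| ≤ m`; choose `A` with `cols (lev s) ⊆ A ⊆ cols M`, `|A| = (m + 1) / 2`,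
`cells (cols (lev s)) ⊆ cells A`; UPP, FST, STP.last. -/
def SpecFIN : Prop :=
  ∀ (R C α : Type) [Fintype R] [Fintype C] (c : R → C → α), Fintype.card R ≤ Fintype.card C →
    (∀ x y y', c x y = c x y' → y = y') → (∀ x x' y, c x y = c x' y → x = x') →
    ∀ μ S : ℕ, 1 ≤ S →
    (∀ A : Finset α, Fintype.card R ≤ 4 * A.card → A.card ≤ Fintype.card R →
      {e : R × C | c e.1 e.2 ∈ A}.ncard ≤ A.card * μ) →
    2 * (μ : ℝ) + (Fintype.card R : ℝ) / 2 ^ (2 ^ S) + 6 * Real.sqrt (Fintype.card R) +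
      170 * 3 ^ S ≤ Fintype.card R →
    ∃ f : R → C, Function.Injective f ∧ Function.Injective fun x => c x (f x)

end Pool.Agent.Lib.MPb3207d.HM
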