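import Pool.Agent.Lib.MP_b3207d_co.HM.Spec

/-!
# MP_b3207d_co, module UPP: upper bound for the number of non-arcs
-/

set_option autoImplicit false

namespace Pool.Agent.Lib.MPb3207d.HM

namespace UPPM

open Finset

variable {R C α : Type} [DecidableEq R] [DecidableEq C] [DecidableEq α]

theorem lev_sub (c : R → C → α) (M : Finset (R × C)) (K s : ℕ) : lev c M K s ⊆ M := by
  cases s with
  | zero => exact Finset.Subset.refl _
  | succ s =>
    classical
    exact Finset.filter_subset (fun v => ¬ Rob c M (lev c M K s) K v) M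

theorem card_rows {c : R → C → α} {M : Finset (R × C)} (hM : RM c M) :
    (rows M).card = M.card :=
  Finset.card_image_of_injOn fun e he f hf h => hM.row e he f hf h

theorem card_clms {c : R → C → α} {M : Finset (R × C)} (hM : RM c M) :
    (clms M).card = M.card :=
  Finset.card_image_of_injOn fun e he f hf h => hM.clm e he f hf h

theorem mem_rows {M : Finset (R × C)} {e : R × C} (he : e ∈ M) : e.1 ∈ rows M :=
  Finset.mem_image_of_mem Prod.fst he

theorem mem_clms {M : Finset (R × C)} {e : R × C} (he : e ∈ M) : e.2 ∈ clms M :=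
  Finset.mem_image_of_mem Prod.snd he

/-- the cells in the rows and columns of `M` -/
theorem part1 [Fintype R] [Fintype C] (c : R → C → α) (M B : Finset (R × C)) (hM : RM c M)
    (hB : B ⊆ M) : (non c M B).card + B.card ≤
      ((cells c (cols c B)).filter fun e => e.1 ∈ rows M ∧ e.2 ∈ clms M).card := by
  have hinj : Set.InjOn (fun p : (R × C) × (R × C) => (p.1.1, p.2.2)) (non c M B) := by
    rintro ⟨v, w⟩ h1 ⟨v', w'⟩ h2 h
    have h1' := Finset.mem_product.1 (Finset.mem_filter.1 h1).1
    have h2' := Finset.mem_product.1 (Finset.mem_filter.1 h2).1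
    have h3 : v.1 = v'.1 ∧ w.2 = w'.2 := Prod.mk_inj.1 h
    exact Prod.ext (hM.row v h1'.1 v' h2'.1 h3.1) (hM.clm w h1'.2 w' h2'.2 h3.2)
  have hdis : Disjoint ((non c M B).image fun p => (p.1.1, p.2.2)) B := by
    rw [Finset.disjoint_left]
    intro e he heB
    obtain ⟨⟨v, w⟩, h1, rfl⟩ := Finset.mem_image.1 he
    have h1' := Finset.mem_filter.1 h1
    have h2' := Finset.mem_product.1 h1'.1
    have h3 := hM.row _ (hB heB) v h2'.1 rfl
    have h4 := hM.clm _ (hB heB) w h2'.2 rfl
    exact h1'.2.1 (h3.symm.trans h4)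
  rw [← Finset.card_image_of_injOn hinj, ← Finset.card_union_of_disjoint hdis]
  refine Finset.card_le_card ?_
  intro e he
  rw [Finset.mem_filter]
  rcases Finset.mem_union.1 he with he | he
  · obtain ⟨⟨v, w⟩, h1, rfl⟩ := Finset.mem_image.1 he
    have h1' := Finset.mem_filter.1 h1
    have h2' := Finset.mem_product.1 h1'.1
    refine ⟨?_, mem_rows (e := v) h2'.1, mem_clms (e := w) h2'.2⟩
    unfold cells
    rw [Finset.mem_filter]
    exact ⟨Finset.mem_univ _, h1'.2.2⟩
  · refine ⟨?_, mem_rows (hB he), mem_clms (hB he)⟩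
    unfold cells
    rw [Finset.mem_filter]
    exact ⟨Finset.mem_univ _, Finset.mem_image_of_mem (col c) he⟩

/-- the cells outside the rows of `M` -/
theorem part2 [Fintype R] [Fintype C] (c : R → C → α) (M : Finset (R × C)) (A : Finset α)
    (hM : RM c M) : ∑ v ∈ M, (univ.filter fun x => x ∉ rows M ∧ c x v.2 ∈ A).card ≤
      ((cells c A).filter fun e => e.1 ∉ rows M ∧ e.2 ∈ clms M).card := by
  rw [← Finset.card_sigma]
  refine Finset.card_le_card_of_injOn (fun p => (p.2, p.1.2)) ?_ ?_
  · rintro ⟨v, x⟩ h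
    have h' := Finset.mem_sigma.1 h
    have h1 : v ∈ M := h'.1
    have h2 := (Finset.mem_filter.1 h'.2).2
    show (x, v.2) ∈ (Finset.filter _ _ : Finset (R × C))
    rw [Finset.mem_filter]
    refine ⟨?_, h2.1, mem_clms (e := v) h1⟩
    unfold cells
    rw [Finset.mem_filter]
    exact ⟨Finset.mem_univ _, h2.2⟩
  · rintro ⟨v, x⟩ h ⟨v', x'⟩ h' he
    have h1 : v ∈ M := (Finset.mem_sigma.1 h).1
    have h2 : v' ∈ M := (Finset.mem_sigma.1 h').1
    have h3 : x = x' ∧ v.2 = v'.2 := Prod.mk_inj.1 he
    obtain rfl := h3.1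
    obtain rfl := hM.clm v h1 v' h2 h3.2
    rfl

/-- the cells outside the columns of `M` -/
theorem part3 [Fintype R] [Fintype C] (c : R → C → α) (M : Finset (R × C)) (A : Finset α)
    (hM : RM c M) : ∑ v ∈ M, (univ.filter fun y => y ∉ clms M ∧ c v.1 y ∈ A).card ≤
      ((cells c A).filter fun e => e.1 ∈ rows M ∧ e.2 ∉ clms M).card := by
  rw [← Finset.card_sigma]
  refine Finset.card_le_card_of_injOn (fun p => (p.1.1, p.2)) ?_ ?_
  · rintro ⟨v, y⟩ h
    have h' := Finset.mem_sigma.1 h
    have h1 : v ∈ M := h'.1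
    have h2 := (Finset.mem_filter.1 h'.2).2
    show (v.1, y) ∈ (Finset.filter _ _ : Finset (R × C))
    rw [Finset.mem_filter]
    refine ⟨?_, mem_rows (e := v) h1, h2.1⟩
    unfold cells
    rw [Finset.mem_filter]
    exact ⟨Finset.mem_univ _, h2.2⟩
  · rintro ⟨v, y⟩ h ⟨v', y'⟩ h' he
    have h1 : v ∈ M := (Finset.mem_sigma.1 h).1
    have h2 : v' ∈ M := (Finset.mem_sigma.1 h').1
    have h3 : v.1 = v'.1 ∧ y = y' := Prod.mk_inj.1 he
    obtain rfl := h3.2
    obtain rfl := hM.row v h1 v' h2 h3.1
    rfl

theorem compl_card {β : Type} [DecidableEq β] [Fintype β] (S : Finset β) :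
    (univ.filter fun x => x ∉ S).card = Fintype.card β - S.card := by
  have h : (univ.filter fun x => x ∉ S) = Sᶜ := by
    ext x
    simp
  rw [h, Finset.card_compl]

theorem split_card {β : Type} [DecidableEq β] [Fintype β] (S : Finset β) (P : β → Prop)
    [DecidablePred P] :
    (univ.filter fun x => x ∉ S ∧ P x).card + (univ.filter fun x => x ∉ S ∧ ¬ P x).card =
      Fintype.card β - S.card := by
  rw [← compl_card S, ← Finset.filter_filter, ← Finset.filter_filter]
  exact Finset.card_filter_add_card_filter_not _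

end UPPM

open UPPM in
theorem specUPP (hATH : SpecATH) : SpecUPP := by
  intro R C α _ _ _ _ _ c M K s hP hM hmax hW hlt hRC
  have hB : lev c M K s ⊆ M := lev_sub c M K s
  have htwo := hATH.two c M K s hP hM hmax hW
  set B := lev c M K s with hBdef
  set A := cols c B with hA
  have h1 := part1 c M B hM hB
  have h2 := part2 c M A hM
  have h3 := part3 c M A hM
  rw [← hA] at h1
  -- the sum over `v`
  have h4 : M.card * (Fintype.card R - M.card - 1) ≤
      ∑ v ∈ M, ((Finset.univ.filter fun x => x ∉ rows M ∧ c x v.2 ∈ A).card +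
        (Finset.univ.filter fun y => y ∉ clms M ∧ c v.1 y ∈ A).card) := by
    rw [← smul_eq_mul]
    refine Finset.card_nsmul_le_sum _ _ _ fun v hv => ?_
    have e1 := split_card (rows M) (fun x => c x v.2 ∈ A)
    have e2 := split_card (clms M) (fun y => c v.1 y ∈ A)
    rw [card_rows hM] at e1
    rw [card_clms hM] at e2
    by_cases hg : (Finset.univ.filter fun y => y ∉ clms M ∧ ¬ c v.1 y ∈ A).card = 0
    · omega
    · obtain ⟨y, hy⟩ := Finset.card_pos.1 (Nat.pos_of_ne_zero hg)
      have hy' := (Finset.mem_filter.1 hy).2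
      have hf : (Finset.univ.filter fun x => x ∉ rows M ∧ ¬ c x v.2 ∈ A).card ≤ 1 := by
        rw [Finset.card_le_one]
        intro x hx x' hx'
        have hx1 := (Finset.mem_filter.1 hx).2
        have hx2 := (Finset.mem_filter.1 hx').2
        have e3 := htwo x y hx1.1 hy'.1 v hv hx1.2 hy'.2
        have e4 := htwo x' y hx2.1 hy'.1 v hv hx2.2 hy'.2
        exact hP.clm x x' v.2 (e3.trans e4.symm)
      omega
  rw [Finset.sum_add_distrib] at h4
  -- the three parts of `cells`
  have h5 : ((cells c A).filter fun e => e.1 ∈ rows M ∧ e.2 ∈ clms M).card +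
      ((cells c A).filter fun e => e.1 ∉ rows M ∧ e.2 ∈ clms M).card +
      ((cells c A).filter fun e => e.1 ∈ rows M ∧ e.2 ∉ clms M).card ≤ (cells c A).card := by
    rw [← Finset.card_union_of_disjoint, ← Finset.card_union_of_disjoint]
    · refine Finset.card_le_card ?_
      intro e he
      rcases Finset.mem_union.1 he with he | he
      · rcases Finset.mem_union.1 he with he | he
        · exact (Finset.mem_filter.1 he).1
        · exact (Finset.mem_filter.1 he).1
      · exact (Finset.mem_filter.1 he).1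
    · rw [Finset.disjoint_left]
      intro e he he'
      have e2 := (Finset.mem_filter.1 he').2
      rcases Finset.mem_union.1 he with he | he
      · exact e2.2 (Finset.mem_filter.1 he).2.2
      · exact e2.2 (Finset.mem_filter.1 he).2.2
    · rw [Finset.disjoint_left]
      intro e he he'
      exact (Finset.mem_filter.1 he').2.1 (Finset.mem_filter.1 he).2.1
  omega

end Pool.Agent.Lib.MPb3207d.HM
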