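import Pool.Agent.Lib.MP_b3207d_co.HM.Spec

/-!
# HM, module WBD: the growth of the contexts
-/

set_option autoImplicit false

namespace Pool.Agent.Lib.MPb3207d.HM

namespace WBDM

theorem T_eq (s : ℕ) : 2 * T s + 3 = 3 ^ (s + 1) := by
  induction s with
  | zero => simp [T]
  | succ s ih =>
    rw [T, pow_succ, ← ih]
    ring

theorem W_succ (s : ℕ) : W (s + 1) = W s + 8 + 2 * T s := by
  rw [W]

end WBDM

open WBDM in
theorem specWBD : SpecWBD where
  bd := by
    intro S
    induction S with
    | zero =>
      rw [W_succ]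
      simp [W, T]
    | succ S ih =>
      rw [W_succ]
      have h := T_eq (S + 1)
      have e1 : 3 ^ (S + 1 + 1) = 9 * 3 ^ S := by ring
      have e2 : 3 ^ (S + 1) = 3 * 3 ^ S := by ring
      rw [e1] at h
      rw [e2]
      have h1 : 1 ≤ 3 ^ S := Nat.one_le_pow _ _ (by norm_num)
      omega
  mono := by
    intro s t hst
    refine monotone_nat_of_le_succ (fun n => ?_) hst
    rw [W_succ]
    omega

end Pool.Agent.Lib.MPb3207d.HM
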